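import Mathlib
import Pool.Agent.H147R3.KH.Five
set_option autoImplicit false

/-! Generic dilations of Kakeya families, maximal form: the averaged kernel. -/

namespace Pool.Agent.H147R3.KM

open MeasureTheory Set Metric
open scoped ENNReal
open Pool.Agent.H147R3.KH

theorem key2 (d : ℕ) (A γ : ℝ) (hA : 0 ≤ A) (hγ : γ ≤ d + 1)
    (L R θ : ℝ) (hL : 0 < L) (hR : 1 ≤ R) (hθ1 : θ < 1) :
    ∃ C : ℝ, 0 ≤ C ∧ ∀ (p : (Fin (d + 2) → ℝ) → (Fin (d + 2) → ℝ)) (_ : Measurable p)
    (μ : Measure (Fin (d + 1) → ℝ)) (_ : SFinite μ)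
    (_ : ∀ x : Fin (d + 1) → ℝ, ∀ r : ℝ, 0 < r →
      μ (closedBall x r) ≤ ENNReal.ofReal (A * r ^ γ)), ∀ δ : ℝ, 0 < δ → δ ≤ R →
      ∫⁻ m in closedBall 0 L, (∫⁻ z in Bx d R ×ˢ Tm R, (∫⁻ v' in Bx d R,
        (S2 p δ).indicator (fun _ => (1 : ℝ≥0∞)) (m, (z, v')))) ∂μ ≤
      ENNReal.ofReal (C * δ ^ (θ * (d + 2) + γ - d - 1)) := by
  have hR0 : 0 < R := by linarith
  obtain ⟨C, hC0, hC⟩ := int_a (d := d) A γ L R θ hA hL hR hθ1 hγ
  refine ⟨(2 * R) ^ (d + 2) * C, by positivity, ?_⟩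
  intro p hp μ _ hμ δ hδ hδR
  set X : Measure (Fin (d + 1) → ℝ) := μ.restrict (closedBall 0 L) with hX
  set B : Measure (Fin (d + 2) → ℝ) := volume.restrict (Bx d R) with hB
  set T : Measure ℝ := volume.restrict (Tm R) with hT
  have hZ : (volume.restrict (Bx d R ×ˢ Tm R) : Measure ((Fin (d + 2) → ℝ) × ℝ)) = B.prod T := by
    rw [hB, hT, Measure.volume_eq_prod, Measure.prod_restrict]
  have hS2 := S2_meas hp δ
  have hS0 := S0_meas hp δ
  have hchi : Measurable fun y : (Fin (d + 1) → ℝ) × (((Fin (d + 2) → ℝ) × ℝ) × (Fin (d + 2) → ℝ))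
      => (S2 p δ).indicator (fun _ => (1 : ℝ≥0∞)) y := measurable_const.indicator hS2
  have hchi1 : Measurable fun y : ((Fin (d + 1) → ℝ) × ((Fin (d + 2) → ℝ) × ℝ)) ×
      (Fin (d + 2) → ℝ) => (S2 p δ).indicator (fun _ => (1 : ℝ≥0∞)) (y.1.1, (y.1.2, y.2)) :=
    hchi.comp (by fun_prop : Measurable fun y : ((Fin (d + 1) → ℝ) × ((Fin (d + 2) → ℝ) × ℝ)) ×
      (Fin (d + 2) → ℝ) => ((y.1.1, (y.1.2, y.2)) :
        (Fin (d + 1) → ℝ) × (((Fin (d + 2) → ℝ) × ℝ) × (Fin (d + 2) → ℝ))))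
  have hint1 : Measurable fun y : (Fin (d + 1) → ℝ) × ((Fin (d + 2) → ℝ) × ℝ) =>
      ∫⁻ v', (S2 p δ).indicator (fun _ => (1 : ℝ≥0∞)) (y.1, (y.2, v')) ∂B :=
    hchi1.lintegral_prod_right'
  have hs0 : Measurable fun w : ((Fin (d + 2) → ℝ) × ℝ) × (Fin (d + 2) → ℝ) =>
      (S0 p δ).indicator (fun _ => (1 : ℝ≥0∞)) w := measurable_const.indicator hS0
  have hQm := QQ_meas (d := d) A γ L R δ
  have hDE : ∀ v ∈ Bx d R, ∫⁻ v', QQ A γ L R δ (fun j => v j - v' j) *
      ENNReal.ofReal (8 * R / (1 + 1 / R / δ * |v 0 - v' 0|)) ∂B ≤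
      ENNReal.ofReal (C * δ ^ (θ * (d + 2) + γ - d - 1)) := by
    intro v hv
    refine le_trans ?_ (hC δ hδ hδR)
    have hbox : MeasurableSet (Set.univ.pi (fun _ : Fin (d + 2) => Icc (-(2 * R)) (2 * R))) :=
      MeasurableSet.univ_pi (fun _ => measurableSet_Icc)
    rw [hB, ← lintegral_indicator (Bx_meas R), ← lintegral_indicator hbox]
    have h1 := lintegral_sub_left_eq_self (μ := (volume : Measure (Fin (d + 2) → ℝ)))
      ((Set.univ.pi (fun _ : Fin (d + 2) => Icc (-(2 * R)) (2 * R))).indicator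
        (fun a => QQ A γ L R δ a * ENNReal.ofReal (8 * R / (1 + 1 / R / δ * |a 0|)))) v
    rw [← h1]
    apply lintegral_mono
    intro v'
    simp only
    by_cases hv' : v' ∈ Bx d R
    · have h2 : v - v' ∈ Set.univ.pi (fun _ : Fin (d + 2) => Icc (-(2 * R)) (2 * R)) := by
        intro j _
        have h3 := hv j (Set.mem_univ j)
        have h4 := hv' j (Set.mem_univ j)
        simp only [Pi.sub_apply]
        constructor <;> linarith [h3.1, h3.2, h4.1, h4.2]
      rw [indicator_of_mem hv', indicator_of_mem h2]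
      exact le_of_eq rfl
    · rw [indicator_of_notMem hv']
      exact zero_le
  calc ∫⁻ m, (∫⁻ z in Bx d R ×ˢ Tm R, (∫⁻ v',
        (S2 p δ).indicator (fun _ => (1 : ℝ≥0∞)) (m, (z, v')) ∂B)) ∂X
      = ∫⁻ z in Bx d R ×ˢ Tm R, (∫⁻ m, (∫⁻ v',
        (S2 p δ).indicator (fun _ => (1 : ℝ≥0∞)) (m, (z, v')) ∂B) ∂X) :=
        lintegral_lintegral_swap (f := fun (m : Fin (d + 1) → ℝ)
          (z : (Fin (d + 2) → ℝ) × ℝ) => ∫⁻ v',
        (S2 p δ).indicator (fun _ => (1 : ℝ≥0∞)) (m, (z, v')) ∂B) hint1.aemeasurable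
    _ ≤ ∫⁻ z in Bx d R ×ˢ Tm R, (∫⁻ v',
        (S0 p δ).indicator (fun _ => (1 : ℝ≥0∞)) (z, v') *
        QQ A γ L R δ (fun j => z.1 j - v' j) ∂B) := by
        apply setLIntegral_mono' ((Bx_meas R).prod (Tm_meas R))
        intro z hz
        have hm : Measurable (Function.uncurry fun (m : Fin (d + 1) → ℝ)
            (v' : Fin (d + 2) → ℝ) => (S2 p δ).indicator (fun _ => (1 : ℝ≥0∞)) (m, (z, v'))) :=
          hchi.comp (by fun_prop : Measurable fun y : (Fin (d + 1) → ℝ) × (Fin (d + 2) → ℝ) =>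
            ((y.1, (z, y.2)) :
              (Fin (d + 1) → ℝ) × (((Fin (d + 2) → ℝ) × ℝ) × (Fin (d + 2) → ℝ))))
        rw [lintegral_lintegral_swap hm.aemeasurable]
        exact lintegral_mono (fun v' => stepC hp μ A γ hA hμ L R δ hL hR hδ z hz.2.1 v')
    _ = ∫⁻ v, (∫⁻ t, (∫⁻ v',
        (S0 p δ).indicator (fun _ => (1 : ℝ≥0∞)) ((v, t), v') *
        QQ A γ L R δ (fun j => v j - v' j) ∂B) ∂T) ∂B := by
        rw [hZ]
        have hm : Measurable fun y : ((Fin (d + 2) → ℝ) × ℝ) × (Fin (d + 2) → ℝ) =>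
            (S0 p δ).indicator (fun _ => (1 : ℝ≥0∞)) y *
            QQ A γ L R δ (fun j => y.1.1 j - y.2 j) := by
          have h1 : Measurable fun y : ((Fin (d + 2) → ℝ) × ℝ) × (Fin (d + 2) → ℝ) =>
              (fun j => y.1.1 j - y.2 j : Fin (d + 2) → ℝ) := by
            rw [measurable_pi_iff]
            intro j
            exact ((measurable_pi_apply j).comp (measurable_fst.comp measurable_fst)).sub
              ((measurable_pi_apply j).comp measurable_snd)
          exact hs0.mul (hQm.comp h1)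
        have hm2 : Measurable fun z : (Fin (d + 2) → ℝ) × ℝ => ∫⁻ v',
            (S0 p δ).indicator (fun _ => (1 : ℝ≥0∞)) (z, v') *
            QQ A γ L R δ (fun j => z.1 j - v' j) ∂B := hm.lintegral_prod_right'
        exact lintegral_prod _ hm2.aemeasurable
    _ ≤ ∫⁻ v, (∫⁻ v', QQ A γ L R δ (fun j => v j - v' j) *
        ENNReal.ofReal (8 * R / (1 + 1 / R / δ * |v 0 - v' 0|)) ∂B) ∂B := by
        refine lintegral_mono (fun v => ?_)
        have hm : Measurable (Function.uncurry fun (t : ℝ) (v' : Fin (d + 2) → ℝ) =>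
            (S0 p δ).indicator (fun _ => (1 : ℝ≥0∞)) ((v, t), v') *
            QQ A γ L R δ (fun j => v j - v' j)) := by
          have h1 : Measurable fun y : ℝ × (Fin (d + 2) → ℝ) =>
              (fun j => v j - y.2 j : Fin (d + 2) → ℝ) := by
            rw [measurable_pi_iff]
            intro j
            exact measurable_const.sub ((measurable_pi_apply j).comp measurable_snd)
          have h2 : Measurable fun y : ℝ × (Fin (d + 2) → ℝ) =>
              (((v, y.1), y.2) : ((Fin (d + 2) → ℝ) × ℝ) × (Fin (d + 2) → ℝ)) := by fun_prop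
          exact (hs0.comp h2).mul (hQm.comp h1)
        rw [lintegral_lintegral_swap hm.aemeasurable]
        apply lintegral_mono
        intro v'
        simp only
        have h3 : Measurable fun t : ℝ => (S0 p δ).indicator (fun _ => (1 : ℝ≥0∞)) ((v, t), v') :=
          hs0.comp (by fun_prop : Measurable fun t : ℝ =>
            (((v, t), v') : ((Fin (d + 2) → ℝ) × ℝ) × (Fin (d + 2) → ℝ)))
        rw [lintegral_mul_const _ h3, mul_comm]
        refine mul_le_mul' le_rfl ?_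
        refine le_trans ?_ (vol0 (v 0 - v' 0) (p v 0 - p v' 0) δ R hδ hR)
        have h4 : MeasurableSet {t : ℝ | ((v, t), v') ∈ S0 p δ} := by
          have h5 : Measurable fun t : ℝ =>
            (((v, t), v') : ((Fin (d + 2) → ℝ) × ℝ) × (Fin (d + 2) → ℝ)) := by fun_prop
          exact h5 hS0
        calc ∫⁻ t, (S0 p δ).indicator (fun _ => (1 : ℝ≥0∞)) ((v, t), v') ∂T =
              ∫⁻ t, ({t : ℝ | ((v, t), v') ∈ S0 p δ}).indicator 1 t ∂T := rfl
          _ = volume ({t : ℝ | ((v, t), v') ∈ S0 p δ} ∩ Tm R) := by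
              rw [lintegral_indicator_one h4, hT, Measure.restrict_apply h4]
          _ ≤ _ := by
              apply measure_mono
              rintro t ⟨ht1, ht2⟩
              exact ⟨ht2.2, ht1⟩
    _ ≤ ∫⁻ v, ENNReal.ofReal (C * δ ^ (θ * (d + 2) + γ - d - 1)) ∂B := by
        rw [hB]
        exact setLIntegral_mono' (Bx_meas R) hDE
    _ = (ENNReal.ofReal (C * δ ^ (θ * (d + 2) + γ - d - 1)) *
          ENNReal.ofReal ((2 * R) ^ (d + 2))) := by
        rw [lintegral_const, hB, Measure.restrict_apply_univ, Bx, volume_pi_pi]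
        simp only [Real.volume_Icc]
        rw [ENNReal.ofReal_pow (by positivity)]
        have : R - -R = 2 * R := by ring
        simp [this]
    _ = _ := by
        rw [← ENNReal.ofReal_mul (by positivity)]
        congr 1
        ring

end Pool.Agent.H147R3.KM
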