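import Mathlib
import Pool.Agent.H147R3.KM.One
set_option autoImplicit false

/-! Weighted row sums, averaged over the dilations. -/

namespace Pool.Agent.H147R3.KM

open MeasureTheory Set Metric
open scoped ENNReal
open Pool.Agent.H147R3.KH

variable {d : ℕ}

/-- the measure of the set of directions whose lines are close to line number `v` at height `t` -/
noncomputable def cl (p : (Fin (d + 2) → ℝ) → (Fin (d + 2) → ℝ)) (R δ : ℝ)
    (m : Fin (d + 1) → ℝ) (v : Fin (d + 2) → ℝ) (t : ℝ) : ℝ≥0∞ :=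
  ∫⁻ v' in Bx d R, (S2 p δ).indicator (fun _ => (1 : ℝ≥0∞)) (m, ((v, t), v'))

lemma cl_unc {p : (Fin (d + 2) → ℝ) → (Fin (d + 2) → ℝ)} (hp : Measurable p) (R δ : ℝ) :
    Measurable fun y : ((Fin (d + 1) → ℝ) × (Fin (d + 2) → ℝ)) × ℝ =>
      cl p R δ y.1.1 y.1.2 y.2 := by
  have hchi : Measurable fun y : (Fin (d + 1) → ℝ) × (((Fin (d + 2) → ℝ) × ℝ) × (Fin (d + 2) → ℝ))
      => (S2 p δ).indicator (fun _ => (1 : ℝ≥0∞)) y := measurable_const.indicator (S2_meas hp δ)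
  have h1 : Measurable fun y : (((Fin (d + 1) → ℝ) × (Fin (d + 2) → ℝ)) × ℝ) × (Fin (d + 2) → ℝ) =>
      ((y.1.1.1, ((y.1.1.2, y.1.2), y.2)) :
        (Fin (d + 1) → ℝ) × (((Fin (d + 2) → ℝ) × ℝ) × (Fin (d + 2) → ℝ))) := by fun_prop
  exact (hchi.comp h1).lintegral_prod_right'

lemma cl_t {p : (Fin (d + 2) → ℝ) → (Fin (d + 2) → ℝ)} (hp : Measurable p) (R δ : ℝ)
    (m : Fin (d + 1) → ℝ) (v : Fin (d + 2) → ℝ) : Measurable (cl p R δ m v) := by
  have h1 : Measurable fun t : ℝ => (((m, v), t) :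
      ((Fin (d + 1) → ℝ) × (Fin (d + 2) → ℝ)) × ℝ) := by fun_prop
  exact (cl_unc hp R δ).comp h1

lemma vol_Bx (R : ℝ) (hR : 0 ≤ R) : volume (Bx d R) = ENNReal.ofReal ((2 * R) ^ (d + 2)) := by
  rw [Bx, volume_pi_pi]
  simp only [Real.volume_Icc]
  rw [ENNReal.ofReal_pow (by positivity)]
  have : R - -R = 2 * R := by ring
  simp [this]

lemma cl_le (p : (Fin (d + 2) → ℝ) → (Fin (d + 2) → ℝ)) (R δ : ℝ) (hR : 0 ≤ R)
    (m : Fin (d + 1) → ℝ) (v : Fin (d + 2) → ℝ) (t : ℝ) :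
    cl p R δ m v t ≤ ENNReal.ofReal ((2 * R) ^ (d + 2)) := by
  rw [← vol_Bx R hR]
  calc cl p R δ m v t ≤ ∫⁻ _ in Bx d R, 1 := by
        apply lintegral_mono
        intro v'
        exact indicator_le_self _ _ _
    _ = _ := by simp

lemma cl_mono (p : (Fin (d + 2) → ℝ) → (Fin (d + 2) → ℝ)) (R : ℝ) {δ δ' : ℝ} (h : δ ≤ δ')
    (m : Fin (d + 1) → ℝ) (v : Fin (d + 2) → ℝ) (t : ℝ) : cl p R δ m v t ≤ cl p R δ' m v t := by
  unfold cl
  refine lintegral_mono (fun v' => ?_)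
  apply indicator_le_indicator_of_subset
  · rintro y ⟨h1, h2⟩
    refine ⟨?_, fun j => ?_⟩
    · have : |(p y.2.1.1 0 - p y.2.2 0) + y.2.1.2 * (y.2.1.1 0 - y.2.2 0)| ≤ 2 * δ := h1
      exact this.trans (by linarith)
    · exact (h2 j).trans (by linarith)
  · intro _
    exact zero_le

/-- the rescaled positions -/
noncomputable def scp (p : (Fin (d + 2) → ℝ) → (Fin (d + 2) → ℝ)) (τ : ℝ) :
    (Fin (d + 2) → ℝ) → (Fin (d + 2) → ℝ) := fun v j => p v j / τ

lemma scp_m {p : (Fin (d + 2) → ℝ) → (Fin (d + 2) → ℝ)} (hp : Measurable p) (τ : ℝ) :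
    Measurable (scp p τ) := by
  unfold scp
  rw [measurable_pi_iff]
  intro j
  exact ((measurable_pi_apply j).comp hp).div_const τ

lemma scal (a τ x y δ : ℝ) (hτ : 0 < τ) : |a + τ * x * y| ≤ 2 * δ ↔
    |a / τ + x * y| ≤ 2 * (δ / τ) := by
  have h1 : a + τ * x * y = τ * (a / τ + x * y) := by
    field_simp
  rw [h1, abs_mul, abs_of_pos hτ]
  have h2 : 2 * (δ / τ) = 2 * δ / τ := by ring
  rw [h2, le_div_iff₀ hτ, mul_comm]

lemma cl_scale (p : (Fin (d + 2) → ℝ) → (Fin (d + 2) → ℝ)) (R δ τ : ℝ) (hτ : 0 < τ)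
    (m : Fin (d + 1) → ℝ) (v : Fin (d + 2) → ℝ) (t : ℝ) :
    cl p R δ m v (τ * t) = cl (scp p τ) R (δ / τ) m v t := by
  unfold cl
  apply lintegral_congr
  intro v'
  have h1 : (m, ((v, τ * t), v')) ∈ S2 p δ ↔ (m, ((v, t), v')) ∈ S2 (scp p τ) (δ / τ) := by
    have e0 : |(p v 0 - p v' 0) + τ * t * (v 0 - v' 0)| ≤ 2 * δ ↔
        |(p v 0 / τ - p v' 0 / τ) + t * (v 0 - v' 0)| ≤ 2 * (δ / τ) := by
      rw [scal _ _ _ _ _ hτ, sub_div]
    have e1 : ∀ j : Fin (d + 1), |m j * (p v j.succ - p v' j.succ) +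
        τ * t * (v j.succ - v' j.succ)| ≤ 2 * δ ↔
        |m j * (p v j.succ / τ - p v' j.succ / τ) + t * (v j.succ - v' j.succ)| ≤
          2 * (δ / τ) := by
      intro j
      rw [scal _ _ _ _ _ hτ, mul_div_assoc, sub_div]
    constructor
    · rintro ⟨h2, h3⟩
      exact ⟨e0.1 h2, fun j => (e1 j).1 (h3 j)⟩
    · rintro ⟨h2, h3⟩
      exact ⟨e0.2 h2, fun j => (e1 j).2 (h3 j)⟩
  by_cases h : (m, ((v, τ * t), v')) ∈ S2 p δ
  · rw [indicator_of_mem h, indicator_of_mem (h1.1 h)]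
  · rw [indicator_of_notMem h, indicator_of_notMem (fun h' => h (h1.2 h'))]

/-- the row sum over the heights away from zero -/
noncomputable def Wt (p : (Fin (d + 2) → ℝ) → (Fin (d + 2) → ℝ)) (R δ : ℝ)
    (m : Fin (d + 1) → ℝ) (v : Fin (d + 2) → ℝ) : ℝ≥0∞ := ∫⁻ t in Tm R, cl p R δ m v t

lemma Wt_unc {p : (Fin (d + 2) → ℝ) → (Fin (d + 2) → ℝ)} (hp : Measurable p) (R δ : ℝ) :
    Measurable (Function.uncurry (Wt p R δ)) := by
  have h2 := (cl_unc hp R δ).lintegral_prod_right' (ν := volume.restrict (Tm R))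
  exact h2

lemma Wt_int {p : (Fin (d + 2) → ℝ) → (Fin (d + 2) → ℝ)} (hp : Measurable p) (R δ : ℝ)
    (m : Fin (d + 1) → ℝ) : ∫⁻ v in Bx d R, Wt p R δ m v =
      ∫⁻ z in Bx d R ×ˢ Tm R, (∫⁻ v' in Bx d R,
        (S2 p δ).indicator (fun _ => (1 : ℝ≥0∞)) (m, (z, v'))) := by
  rw [Measure.volume_eq_prod, ← Measure.prod_restrict]
  have hchi : Measurable fun y : (Fin (d + 1) → ℝ) × (((Fin (d + 2) → ℝ) × ℝ) × (Fin (d + 2) → ℝ))
      => (S2 p δ).indicator (fun _ => (1 : ℝ≥0∞)) y := measurable_const.indicator (S2_meas hp δ)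
  have h1 : Measurable fun y : ((Fin (d + 2) → ℝ) × ℝ) × (Fin (d + 2) → ℝ) =>
      ((m, (y.1, y.2)) :
        (Fin (d + 1) → ℝ) × (((Fin (d + 2) → ℝ) × ℝ) × (Fin (d + 2) → ℝ))) := by fun_prop
  have h2 : Measurable fun z : (Fin (d + 2) → ℝ) × ℝ => ∫⁻ v' in Bx d R,
        (S2 p δ).indicator (fun _ => (1 : ℝ≥0∞)) (m, (z, v')) :=
    (hchi.comp h1).lintegral_prod_right'
  exact (lintegral_prod _ h2.aemeasurable).symm

/-- scaling of the heights -/
lemma piece {p : (Fin (d + 2) → ℝ) → (Fin (d + 2) → ℝ)} (hp : Measurable p) (R δ τ : ℝ)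
    (hτ : 0 < τ) (m : Fin (d + 1) → ℝ) (v : Fin (d + 2) → ℝ) :
    ∫⁻ t in {t : ℝ | τ⁻¹ * t ∈ Tm R}, cl p R δ m v t =
      ENNReal.ofReal τ * Wt (scp p τ) R (δ / τ) m v := by
  have hms : MeasurableSet {t : ℝ | τ⁻¹ * t ∈ Tm R} := by
    have : Measurable fun t : ℝ => τ⁻¹ * t := by fun_prop
    exact this (Tm_meas R)
  have hg : Measurable ((Tm R).indicator (cl (scp p τ) R (δ / τ) m v)) :=
    (cl_t (scp_m hp τ) R (δ / τ) m v).indicator (Tm_meas R)
  have h1 := KK.lint_scale ((Tm R).indicator (cl (scp p τ) R (δ / τ) m v)) hg τ⁻¹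
    (inv_pos.2 hτ)
  rw [inv_inv, lintegral_indicator (Tm_meas R)] at h1
  unfold Wt
  rw [← h1, ← lintegral_indicator hms]
  apply lintegral_congr
  intro t
  by_cases h : τ⁻¹ * t ∈ Tm R
  · have h' : t ∈ {t : ℝ | τ⁻¹ * t ∈ Tm R} := h
    rw [indicator_of_mem h, indicator_of_mem h', ← cl_scale p R δ τ hτ]
    congr 1
    field_simp
  · have h' : t ∉ {t : ℝ | τ⁻¹ * t ∈ Tm R} := h
    rw [indicator_of_notMem h, indicator_of_notMem h']

/-- the weighted row sum -/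
noncomputable def Wa (p : (Fin (d + 2) → ℝ) → (Fin (d + 2) → ℝ)) (R α δ : ℝ)
    (m : Fin (d + 1) → ℝ) (v : Fin (d + 2) → ℝ) : ℝ≥0∞ :=
  ∫⁻ t in Icc (-R) R, ENNReal.ofReal ((δ + |t|) ^ α) * cl p R δ m v t

lemma Wa_unc {p : (Fin (d + 2) → ℝ) → (Fin (d + 2) → ℝ)} (hp : Measurable p) (R α δ : ℝ) :
    Measurable (Function.uncurry (Wa p R α δ)) := by
  have h1 : Measurable fun y : ((Fin (d + 1) → ℝ) × (Fin (d + 2) → ℝ)) × ℝ =>
      ENNReal.ofReal ((δ + |y.2|) ^ α) := by fun_prop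
  have h3 : Measurable fun y : ((Fin (d + 1) → ℝ) × (Fin (d + 2) → ℝ)) × ℝ =>
      ENNReal.ofReal ((δ + |y.2|) ^ α) * cl p R δ y.1.1 y.1.2 y.2 := h1.mul (cl_unc hp R δ)
  have h2 := h3.lintegral_prod_right' (ν := volume.restrict (Icc (-R) R))
  exact h2

lemma Wa_mono (p : (Fin (d + 2) → ℝ) → (Fin (d + 2) → ℝ)) (R α : ℝ) (hα : 0 ≤ α) {δ δ' : ℝ}
    (h0 : 0 ≤ δ) (h : δ ≤ δ')
    (m : Fin (d + 1) → ℝ) (v : Fin (d + 2) → ℝ) : Wa p R α δ m v ≤ Wa p R α δ' m v := by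
  unfold Wa
  refine lintegral_mono (fun t => ?_)
  refine mul_le_mul' ?_ (cl_mono p R h m v t)
  apply ENNReal.ofReal_le_ofReal
  have : 0 ≤ |t| := abs_nonneg t
  gcongr

/-- the dyadic decomposition of the weighted row sum -/
lemma Wa_le {p : (Fin (d + 2) → ℝ) → (Fin (d + 2) → ℝ)} (hp : Measurable p) (R α δ : ℝ)
    (hR : 2 ≤ R) (hα : 0 ≤ α) (hδ : 0 < δ) (m : Fin (d + 1) → ℝ) (v : Fin (d + 2) → ℝ) :
    Wa p R α δ m v ≤ ENNReal.ofReal ((2 * δ) ^ α * (2 * δ) * (2 * R) ^ (d + 2)) +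
      ∑' k : ℕ, if δ ≤ R * (1 / 2) ^ k then
        ENNReal.ofReal (((R + 1) * (R * (1 / 2) ^ k)) ^ α * (R * (1 / 2) ^ k)) *
        Wt (scp p (R * (1 / 2) ^ k)) R (δ / (R * (1 / 2) ^ k)) m v else 0 := by
  have hR0 : 0 < R := by linarith
  set D : ℕ → Set ℝ := fun k => if δ ≤ R * (1 / 2) ^ k then
    {t : ℝ | (R * (1 / 2) ^ k)⁻¹ * t ∈ Tm R} else ∅ with hD
  have hsub : Icc (-R) R ⊆ Icc (-δ) δ ∪ ⋃ k, D k := by
    intro t ht
    rcases le_or_gt |t| δ with h | h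
    · left
      exact abs_le.1 h
    · right
      have h1 : |t| ≤ R := abs_le.2 ht
      have h2 : 0 < |t| / R := div_pos (hδ.trans h) hR0
      have h3 : |t| / R ≤ 1 := by
        rw [div_le_one hR0]
        exact h1
      obtain ⟨k, hk1, hk2⟩ := exists_nat_pow_near_of_lt_one h2 h3 (by norm_num : (0:ℝ) < 1 / 2)
        (by norm_num)
      rw [mem_iUnion]
      refine ⟨k, ?_⟩
      have hk0 : (0 : ℝ) < (1 / 2) ^ k := by positivity
      rw [div_le_iff₀ hR0] at hk2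
      rw [lt_div_iff₀ hR0, pow_succ] at hk1
      have hτ : 0 < R * (1 / 2) ^ k := by positivity
      have h4 : δ ≤ R * (1 / 2) ^ k := by linarith
      have h5 : (R * (1 / 2) ^ k)⁻¹ * t ∈ Tm R := by
        have e1 : |(R * (1 / 2) ^ k)⁻¹ * t| = |t| / (R * (1 / 2) ^ k) := by
          rw [abs_mul, abs_inv, abs_of_pos hτ]
          field_simp
        constructor
        · rw [e1, div_le_div_iff₀ hR0 hτ]
          nlinarith
        · rw [e1, div_le_iff₀ hτ]
          nlinarith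
      simp only [hD]
      rw [if_pos h4]
      exact h5
  have hcl := cl_t hp R δ m v
  have hg : Measurable fun t : ℝ => ENNReal.ofReal ((δ + |t|) ^ α) * cl p R δ m v t := by
    have : Measurable fun t : ℝ => ENNReal.ofReal ((δ + |t|) ^ α) := by fun_prop
    exact this.mul hcl
  calc Wa p R α δ m v ≤ ∫⁻ t in Icc (-δ) δ ∪ ⋃ k, D k,
        ENNReal.ofReal ((δ + |t|) ^ α) * cl p R δ m v t := lintegral_mono_set hsub
    _ ≤ (∫⁻ t in Icc (-δ) δ, ENNReal.ofReal ((δ + |t|) ^ α) * cl p R δ m v t) +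
        ∫⁻ t in ⋃ k, D k, ENNReal.ofReal ((δ + |t|) ^ α) * cl p R δ m v t :=
        lintegral_union_le _ _ _
    _ ≤ (∫⁻ t in Icc (-δ) δ, ENNReal.ofReal ((δ + |t|) ^ α) * cl p R δ m v t) +
        ∑' k, ∫⁻ t in D k, ENNReal.ofReal ((δ + |t|) ^ α) * cl p R δ m v t := by
        gcongr
        exact lintegral_iUnion_le _ _
    _ ≤ _ := by
        refine add_le_add ?_ (ENNReal.tsum_le_tsum (fun k => ?_))
        · calc ∫⁻ t in Icc (-δ) δ, ENNReal.ofReal ((δ + |t|) ^ α) * cl p R δ m v t ≤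
                ∫⁻ t in Icc (-δ) δ, ENNReal.ofReal ((2 * δ) ^ α) *
                  ENNReal.ofReal ((2 * R) ^ (d + 2)) := by
                apply setLIntegral_mono' measurableSet_Icc
                intro t ht
                refine mul_le_mul' (ENNReal.ofReal_le_ofReal ?_) (cl_le p R δ hR0.le m v t)
                have h1 : |t| ≤ δ := abs_le.2 ht
                have h2 : 0 ≤ |t| := abs_nonneg t
                have h3 : δ + |t| ≤ 2 * δ := by linarith
                gcongr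
            _ = _ := by
                rw [setLIntegral_const, Real.volume_Icc, ← ENNReal.ofReal_mul (by positivity),
                  ← ENNReal.ofReal_mul (by positivity)]
                congr 1
                ring
        · simp only [hD]
          split_ifs with h
          · have hτ : 0 < R * (1 / 2) ^ k := by positivity
            have hms : MeasurableSet {t : ℝ | (R * (1 / 2) ^ k)⁻¹ * t ∈ Tm R} := by
              have : Measurable fun t : ℝ => (R * (1 / 2) ^ k)⁻¹ * t := by fun_prop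
              exact this (Tm_meas R)
            calc ∫⁻ t in {t : ℝ | (R * (1 / 2) ^ k)⁻¹ * t ∈ Tm R},
                  ENNReal.ofReal ((δ + |t|) ^ α) * cl p R δ m v t ≤
                  ∫⁻ t in {t : ℝ | (R * (1 / 2) ^ k)⁻¹ * t ∈ Tm R},
                  ENNReal.ofReal (((R + 1) * (R * (1 / 2) ^ k)) ^ α) * cl p R δ m v t := by
                  apply setLIntegral_mono' hms
                  intro t ht
                  refine mul_le_mul' (ENNReal.ofReal_le_ofReal ?_) le_rfl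
                  have h1 : |(R * (1 / 2) ^ k)⁻¹ * t| ≤ R := ht.2
                  rw [abs_mul, abs_inv, abs_of_pos hτ, inv_mul_le_iff₀ hτ] at h1
                  have h2 : 0 ≤ |t| := abs_nonneg t
                  have h3 : δ + |t| ≤ (R + 1) * (R * (1 / 2) ^ k) := by linarith
                  gcongr
              _ = _ := by
                  rw [lintegral_const_mul _ hcl, piece hp R δ _ hτ, ← mul_assoc,
                    ← ENNReal.ofReal_mul (by positivity)]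
          · simp

end Pool.Agent.H147R3.KM
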