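import Mathlib
import Pool.Agent.H147R3.KM.Three
set_option autoImplicit false

/-! Weighted row sums, averaged over the dilations: the estimate. -/

namespace Pool.Agent.H147R3.KM

open MeasureTheory Set Metric
open scoped ENNReal
open Pool.Agent.H147R3.KH

/-- the terms of the decomposition -/
noncomputable def tk {d : ℕ} (p : (Fin (d + 2) → ℝ) → (Fin (d + 2) → ℝ)) (R α δ : ℝ) (k : ℕ)
    (m : Fin (d + 1) → ℝ) (v : Fin (d + 2) → ℝ) : ℝ≥0∞ :=
  if δ ≤ R * (1 / 2) ^ k then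
        ENNReal.ofReal (((R + 1) * (R * (1 / 2) ^ k)) ^ α * (R * (1 / 2) ^ k)) *
        Wt (scp p (R * (1 / 2) ^ k)) R (δ / (R * (1 / 2) ^ k)) m v else 0

lemma tk_unc {d : ℕ} {p : (Fin (d + 2) → ℝ) → (Fin (d + 2) → ℝ)} (hp : Measurable p)
    (R α δ : ℝ) (k : ℕ) : Measurable (Function.uncurry (tk p R α δ k)) := by
  unfold tk
  split_ifs
  · have h1 := Wt_unc (scp_m hp (R * (1 / 2) ^ k)) R (δ / (R * (1 / 2) ^ k))
    exact h1.const_mul _
  · exact measurable_const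

theorem key3 (d : ℕ) (A γ : ℝ) (hA : 0 ≤ A) (hγ : γ ≤ d + 1)
    (L R α ε : ℝ) (hL : 0 < L) (hR : 2 ≤ R) (hα : 0 ≤ α) (hαγ : α ≤ γ) (hε : 0 < ε) :
    ∃ C : ℝ, 0 ≤ C ∧ ∀ (p : (Fin (d + 2) → ℝ) → (Fin (d + 2) → ℝ)) (_ : Measurable p)
    (μ : Measure (Fin (d + 1) → ℝ)) (_ : SFinite μ)
    (_ : ∀ x : Fin (d + 1) → ℝ, ∀ r : ℝ, 0 < r →
      μ (closedBall x r) ≤ ENNReal.ofReal (A * r ^ γ)), ∀ δ : ℝ, 0 < δ → δ ≤ R →
      ∫⁻ m in closedBall 0 L, (∫⁻ v in Bx d R, Wa p R α δ m v) ∂μ ≤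
      ENNReal.ofReal (C * δ ^ (1 + α - ε)) := by
  have hR0 : 0 < R := by linarith
  have hd : (0 : ℝ) ≤ d := Nat.cast_nonneg d
  set θ : ℝ := 1 - ε / (d + 2) with hθ
  have hθ1 : θ < 1 := by
    have : 0 < ε / ((d : ℝ) + 2) := by positivity
    rw [hθ]
    linarith
  have hθs : θ * (d + 2) + γ - d - 1 = 1 + γ - ε := by
    rw [hθ]
    field_simp
    ring
  obtain ⟨C0, hC0, hC⟩ := key2 d A γ hA hγ L R θ hL (by linarith) hθ1
  rw [hθs] at hC
  set ρ : ℝ := (1 / 2 : ℝ) ^ ε with hρ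
  have hρ0 : 0 ≤ ρ := by positivity
  have hρ1 : ρ < 1 := Real.rpow_lt_one (by norm_num) (by norm_num) hε
  have hinv : 0 < (1 - ρ)⁻¹ := inv_pos.2 (by linarith)
  refine ⟨2 ^ (α + 1) * (2 * R) ^ (d + 2) * (2 * R) ^ (d + 2) * (A * L ^ γ) * R ^ ε +
    (R + 1) ^ α * C0 * R ^ ε * (1 - ρ)⁻¹, by positivity, ?_⟩
  intro p hp μ _ hμ δ hδ hδR
  have htk : ∀ k, Measurable (Function.uncurry (tk p R α δ k)) := tk_unc hp R α δ
  have htk1 : ∀ k m, Measurable (tk p R α δ k m) := fun k m => (htk k).of_uncurry_left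
  have htk2 : ∀ k, Measurable fun m => ∫⁻ v in Bx d R, tk p R α δ k m v :=
    fun k => Measurable.lintegral_prod_right (htk k)
  have hterm : ∀ k, ∫⁻ m in closedBall 0 L, (∫⁻ v in Bx d R, tk p R α δ k m v) ∂μ ≤
      ENNReal.ofReal ((R + 1) ^ α * C0 * R ^ ε * δ ^ (1 + α - ε) * ρ ^ k) := by
    intro k
    unfold tk
    split_ifs with h
    · set τ : ℝ := R * (1 / 2) ^ k with hτd
      have hτ : 0 < τ := by positivity
      have hW := Wt_unc (scp_m hp τ) R (δ / τ)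
      have hW1 : ∀ m, Measurable (Wt (scp p τ) R (δ / τ) m) := fun m => hW.of_uncurry_left
      have hW2 : Measurable fun m => ∫⁻ v in Bx d R, Wt (scp p τ) R (δ / τ) m v :=
        Measurable.lintegral_prod_right hW
      have e1 : ∀ m, ∫⁻ v in Bx d R, ENNReal.ofReal (((R + 1) * τ) ^ α * τ) *
          Wt (scp p τ) R (δ / τ) m v = ENNReal.ofReal (((R + 1) * τ) ^ α * τ) *
          ∫⁻ v in Bx d R, Wt (scp p τ) R (δ / τ) m v := fun m => lintegral_const_mul _ (hW1 m)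
      simp only [e1]
      rw [lintegral_const_mul _ hW2]
      simp only [Wt_int (scp_m hp τ)]
      have hle : δ / τ ≤ 1 := by
        rw [div_le_one hτ]
        exact h
      refine (mul_le_mul' le_rfl (hC (scp p τ) (scp_m hp τ) μ inferInstance hμ (δ / τ)
        (by positivity) (hle.trans (by linarith)))).trans ?_
      rw [← ENNReal.ofReal_mul (by positivity)]
      apply ENNReal.ofReal_le_ofReal
      have h1 : (δ / τ) ^ (1 + γ - ε) ≤ (δ / τ) ^ (1 + α - ε) :=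
        Real.rpow_le_rpow_of_exponent_ge (by positivity) hle (by linarith)
      calc ((R + 1) * τ) ^ α * τ * (C0 * (δ / τ) ^ (1 + γ - ε)) ≤
            ((R + 1) * τ) ^ α * τ * (C0 * (δ / τ) ^ (1 + α - ε)) := by gcongr
        _ = (R + 1) ^ α * C0 * δ ^ (1 + α - ε) * (τ ^ α * τ / τ ^ (1 + α - ε)) := by
            rw [Real.mul_rpow (by positivity) hτ.le, Real.div_rpow hδ.le hτ.le]
            ring
        _ = (R + 1) ^ α * C0 * δ ^ (1 + α - ε) * τ ^ ε := by
            congr 1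
            rw [show τ ^ α * τ = τ ^ (α + 1) by rw [Real.rpow_add hτ, Real.rpow_one],
              ← Real.rpow_sub hτ]
            congr 1
            ring
        _ = _ := by
            rw [hτd, Real.mul_rpow hR0.le (by positivity)]
            have : ((1 / 2 : ℝ) ^ k) ^ ε = ρ ^ k := by
              rw [hρ, ← Real.rpow_natCast, ← Real.rpow_mul (by norm_num), mul_comm,
                Real.rpow_mul (by norm_num), Real.rpow_natCast]
            rw [this]
            ring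
    · simp
  have hfirst : ∫⁻ m in closedBall 0 L, (∫⁻ v in Bx d R,
      ENNReal.ofReal ((2 * δ) ^ α * (2 * δ) * (2 * R) ^ (d + 2))) ∂μ ≤
      ENNReal.ofReal (2 ^ (α + 1) * (2 * R) ^ (d + 2) * (2 * R) ^ (d + 2) * (A * L ^ γ) * R ^ ε *
        δ ^ (1 + α - ε)) := by
    rw [lintegral_const, lintegral_const, Measure.restrict_apply_univ, Measure.restrict_apply_univ,
      vol_Bx R hR0.le]
    refine (mul_le_mul' le_rfl (hμ 0 L hL)).trans ?_
    rw [← ENNReal.ofReal_mul (by positivity), ← ENNReal.ofReal_mul (by positivity)]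
    apply ENNReal.ofReal_le_ofReal
    have h1 : (2 * δ) ^ α * (2 * δ) = 2 ^ (α + 1) * δ ^ (1 + α) := by
      rw [Real.mul_rpow (by norm_num) hδ.le, Real.rpow_add (by norm_num), Real.rpow_add hδ,
        Real.rpow_one, Real.rpow_one]
      ring
    have h2 : δ ^ (1 + α) ≤ R ^ ε * δ ^ (1 + α - ε) := by
      calc δ ^ (1 + α) = δ ^ ε * δ ^ (1 + α - ε) := by
            rw [← Real.rpow_add hδ]
            congr 1
            ring
        _ ≤ _ := by gcongr
    calc (2 * δ) ^ α * (2 * δ) * (2 * R) ^ (d + 2) * (2 * R) ^ (d + 2) * (A * L ^ γ) =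
          2 ^ (α + 1) * (2 * R) ^ (d + 2) * (2 * R) ^ (d + 2) * (A * L ^ γ) * δ ^ (1 + α) := by
          rw [h1]
          ring
      _ ≤ 2 ^ (α + 1) * (2 * R) ^ (d + 2) * (2 * R) ^ (d + 2) * (A * L ^ γ) *
          (R ^ ε * δ ^ (1 + α - ε)) := by gcongr
      _ = _ := by ring
  calc ∫⁻ m in closedBall 0 L, (∫⁻ v in Bx d R, Wa p R α δ m v) ∂μ ≤
        ∫⁻ m in closedBall 0 L, (∫⁻ v in Bx d R,
          (ENNReal.ofReal ((2 * δ) ^ α * (2 * δ) * (2 * R) ^ (d + 2)) +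
          ∑' k : ℕ, tk p R α δ k m v)) ∂μ := by
        refine lintegral_mono (fun m => lintegral_mono (fun v => ?_))
        exact Wa_le hp R α δ hR hα hδ m v
    _ = ∫⁻ m in closedBall 0 L, ((∫⁻ v in Bx d R,
          ENNReal.ofReal ((2 * δ) ^ α * (2 * δ) * (2 * R) ^ (d + 2))) +
          ∑' k : ℕ, ∫⁻ v in Bx d R, tk p R α δ k m v) ∂μ := by
        apply lintegral_congr
        intro m
        rw [lintegral_add_left measurable_const,
          lintegral_tsum (fun k => (htk1 k m).aemeasurable)]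
    _ = (∫⁻ m in closedBall 0 L, (∫⁻ v in Bx d R,
          ENNReal.ofReal ((2 * δ) ^ α * (2 * δ) * (2 * R) ^ (d + 2))) ∂μ) +
          ∑' k : ℕ, ∫⁻ m in closedBall 0 L, (∫⁻ v in Bx d R, tk p R α δ k m v) ∂μ := by
        rw [lintegral_add_left measurable_const,
          lintegral_tsum (fun k => (htk2 k).aemeasurable)]
    _ ≤ ENNReal.ofReal (2 ^ (α + 1) * (2 * R) ^ (d + 2) * (2 * R) ^ (d + 2) * (A * L ^ γ) * R ^ ε *
        δ ^ (1 + α - ε)) +
        ∑' k : ℕ, ENNReal.ofReal ((R + 1) ^ α * C0 * R ^ ε * δ ^ (1 + α - ε) * ρ ^ k) :=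
        add_le_add hfirst (ENNReal.tsum_le_tsum hterm)
    _ = _ := by
        have hs : Summable fun k : ℕ => (R + 1) ^ α * C0 * R ^ ε * δ ^ (1 + α - ε) * ρ ^ k :=
          (summable_geometric_of_lt_one hρ0 hρ1).mul_left _
        rw [← ENNReal.ofReal_tsum_of_nonneg (fun k => by positivity) hs, tsum_mul_left,
          tsum_geometric_of_lt_one hρ0 hρ1, ← ENNReal.ofReal_add (by positivity) (by positivity)]
        congr 1
        ring

end Pool.Agent.H147R3.KM
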