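import Mathlib
import Pool.Agent.H147R3.KM.Four
set_option autoImplicit false

/-! The potentials. -/

namespace Pool.Agent.H147R3.KM

open MeasureTheory Set Metric
open scoped ENNReal
open Pool.Agent.H147R3.KH

variable {d : ℕ}

/-- the potential -/
noncomputable def ptn (p : (Fin (d + 2) → ℝ) → (Fin (d + 2) → ℝ)) (R α s : ℝ)
    (m : Fin (d + 1) → ℝ) (v : Fin (d + 2) → ℝ) : ℝ≥0∞ :=
  ∑' k : ℕ, ENNReal.ofReal (2 ^ (k * s)) * Wa p R α (R * (1 / 2 : ℝ) ^ k) m v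

lemma ptn_unc {p : (Fin (d + 2) → ℝ) → (Fin (d + 2) → ℝ)} (hp : Measurable p) (R α s : ℝ) :
    Measurable (Function.uncurry (ptn p R α s)) := by
  have h1 : Function.uncurry (ptn p R α s) = fun y => ∑' k : ℕ, ENNReal.ofReal (2 ^ (k * s)) *
      Function.uncurry (Wa p R α (R * (1 / 2 : ℝ) ^ k)) y := rfl
  rw [h1]
  exact Measurable.tsum (fun k => (Wa_unc hp R α (R * (1 / 2 : ℝ) ^ k)).const_mul _)

lemma ptn_m {p : (Fin (d + 2) → ℝ) → (Fin (d + 2) → ℝ)} (hp : Measurable p) (R α s : ℝ)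
    (m : Fin (d + 1) → ℝ) : Measurable (ptn p R α s m) := (ptn_unc hp R α s).of_uncurry_left

lemma ptn_int {p : (Fin (d + 2) → ℝ) → (Fin (d + 2) → ℝ)} (hp : Measurable p) (R α s : ℝ)
    (m : Fin (d + 1) → ℝ) : ∫⁻ v in Bx d R, ptn p R α s m v =
      ∑' k : ℕ, ENNReal.ofReal (2 ^ (k * s)) *
        ∫⁻ v in Bx d R, Wa p R α (R * (1 / 2 : ℝ) ^ k) m v := by
  unfold ptn
  have hW : ∀ k : ℕ, Measurable (Wa p R α (R * (1 / 2 : ℝ) ^ k) m) :=
    fun k => (Wa_unc hp R α (R * (1 / 2 : ℝ) ^ k)).of_uncurry_left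
  rw [lintegral_tsum (fun k => ((hW k).const_mul _).aemeasurable)]
  congr 1
  ext k
  rw [lintegral_const_mul _ (hW k)]

theorem ae_fin3 {p : (Fin (d + 2) → ℝ) → (Fin (d + 2) → ℝ)} (hp : Measurable p)
    (μ : Measure (Fin (d + 1) → ℝ)) (hsf : SFinite μ) (A γ : ℝ) (hA : 0 ≤ A) (hγ : γ ≤ d + 1)
    (hμ : ∀ x : Fin (d + 1) → ℝ, ∀ r : ℝ, 0 < r →
      μ (closedBall x r) ≤ ENNReal.ofReal (A * r ^ γ))
    (L R α s : ℝ) (hL : 0 < L) (hR : 2 ≤ R) (hα : 0 ≤ α) (hαγ : α ≤ γ) (hs : s < 1 + α) :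
    ∀ᵐ m ∂(μ.restrict (closedBall 0 L)), ∫⁻ v in Bx d R, ptn p R α s m v < ⊤ := by
  have hR0 : 0 < R := by linarith
  have hε : 0 < (1 + α - s) / 2 := by linarith
  obtain ⟨C, hC0, hC⟩ := key3 d A γ hA hγ L R α ((1 + α - s) / 2) hL hR hα hαγ hε
  have hσ : 1 + α - (1 + α - s) / 2 = (1 + α + s) / 2 := by ring
  rw [hσ] at hC
  have hi : ∀ k : ℕ, Measurable fun m : Fin (d + 1) → ℝ =>
      ∫⁻ v in Bx d R, Wa p R α (R * (1 / 2 : ℝ) ^ k) m v := fun k =>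
    Measurable.lintegral_prod_right (Wa_unc hp R α (R * (1 / 2 : ℝ) ^ k))
  have hfin : ∫⁻ m in closedBall 0 L, (∫⁻ v in Bx d R, ptn p R α s m v) ∂μ ≠ ⊤ := by
    simp only [ptn_int hp]
    rw [lintegral_tsum (fun k => ((hi k).const_mul _).aemeasurable)]
    have h2 : ∀ k : ℕ, ∫⁻ m in closedBall 0 L, (ENNReal.ofReal (2 ^ (k * s)) *
        ∫⁻ v in Bx d R, Wa p R α (R * (1 / 2 : ℝ) ^ k) m v) ∂μ ≤
        ENNReal.ofReal (C * R ^ ((1 + α + s) / 2) *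
          ((2 : ℝ) ^ (-((1 + α - s) / 2))) ^ k) := by
      intro k
      rw [lintegral_const_mul _ (hi k)]
      have hk1 : R * (1 / 2 : ℝ) ^ k ≤ R := by
        have : (1 / 2 : ℝ) ^ k ≤ 1 := pow_le_one₀ (by norm_num) (by norm_num)
        nlinarith
      refine (mul_le_mul' le_rfl (hC p hp μ hsf hμ (R * (1 / 2 : ℝ) ^ k) (by positivity)
        hk1)).trans (le_of_eq ?_)
      rw [← ENNReal.ofReal_mul (by positivity)]
      congr 1
      have e1 : (R * (1 / 2 : ℝ) ^ k) ^ ((1 + α + s) / 2) = R ^ ((1 + α + s) / 2) *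
          2 ^ (-(k * ((1 + α + s) / 2))) := by
        rw [Real.mul_rpow hR0.le (by positivity), ← Real.rpow_natCast,
          ← Real.rpow_mul (by norm_num), one_div, Real.inv_rpow (by norm_num),
          ← Real.rpow_neg (by norm_num)]
      have e2 : ((2 : ℝ) ^ (-((1 + α - s) / 2))) ^ k = 2 ^ (-((1 + α - s) / 2) * k) := by
        rw [Real.rpow_mul (by norm_num), Real.rpow_natCast]
      rw [e1, e2]
      have e3 : (2 : ℝ) ^ (k * s) * (C * (R ^ ((1 + α + s) / 2) *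
          2 ^ (-(k * ((1 + α + s) / 2))))) =
          C * R ^ ((1 + α + s) / 2) * (2 ^ (k * s) * 2 ^ (-(k * ((1 + α + s) / 2)))) := by ring
      rw [e3, ← Real.rpow_add (by norm_num)]
      congr 2
      ring
    refine ne_top_of_le_ne_top ?_ (ENNReal.tsum_le_tsum h2)
    have hr0 : (0 : ℝ) ≤ (2 : ℝ) ^ (-((1 + α - s) / 2)) := by positivity
    have hr1 : (2 : ℝ) ^ (-((1 + α - s) / 2)) < 1 :=
      Real.rpow_lt_one_of_one_lt_of_neg (by norm_num) (by linarith)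
    have hsum : Summable fun k : ℕ => C * R ^ ((1 + α + s) / 2) *
        ((2 : ℝ) ^ (-((1 + α - s) / 2))) ^ k :=
      (summable_geometric_of_lt_one hr0 hr1).mul_left _
    exact hsum.tsum_ofReal_ne_top
  exact ae_lt_top (Measurable.lintegral_prod_right (ptn_unc hp R α s)) hfin

/-- control of the weighted row sum by the potential -/
lemma Wa_ptn (p : (Fin (d + 2) → ℝ) → (Fin (d + 2) → ℝ)) (R α s : ℝ) (hR : 0 < R) (hα : 0 ≤ α)
    (hs : 0 ≤ s) (m : Fin (d + 1) → ℝ) (v : Fin (d + 2) → ℝ) (δ : ℝ) (hδ : 0 < δ) (hδR : δ ≤ R) :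
    Wa p R α δ m v ≤ ENNReal.ofReal ((2 / R) ^ s * δ ^ s) * ptn p R α s m v := by
  have hdR : 0 < δ / R := by positivity
  have hdR1 : δ / R ≤ 1 := by
    rw [div_le_one hR]
    exact hδR
  obtain ⟨k, hk1, hk2⟩ := exists_nat_pow_near_of_lt_one hdR hdR1 (by norm_num : (0:ℝ) < 1 / 2)
      (by norm_num)
  have h1 : ENNReal.ofReal (2 ^ (k * s)) * Wa p R α (R * (1 / 2 : ℝ) ^ k) m v ≤
      ptn p R α s m v := by
    unfold ptn
    exact ENNReal.le_tsum (f := fun k : ℕ => ENNReal.ofReal (2 ^ (k * s)) *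
      Wa p R α (R * (1 / 2 : ℝ) ^ k) m v) k
  have h3 : δ ≤ R * (1 / 2 : ℝ) ^ k := by
    rw [div_le_iff₀ hR] at hk2
    linarith
  have h4 : ((1 / 2 : ℝ) ^ k) ≤ 2 / R * δ := by
    rw [pow_succ, lt_div_iff₀ hR] at hk1
    rw [div_mul_eq_mul_div, le_div_iff₀ hR]
    linarith
  have h5 : ((2 : ℝ) ^ (k * s))⁻¹ ≤ (2 / R) ^ s * δ ^ s := by
    rw [← Real.mul_rpow (by positivity) hδ.le]
    calc ((2 : ℝ) ^ (k * s))⁻¹ = ((1 / 2 : ℝ) ^ k) ^ s := by
          rw [← Real.rpow_natCast, ← Real.rpow_mul (by norm_num), Real.div_rpow (by norm_num)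
            (by norm_num), Real.one_rpow, one_div]
      _ ≤ _ := by gcongr
  have h6 : (0 : ℝ) < 2 ^ (k * s) := by positivity
  calc Wa p R α δ m v ≤ Wa p R α (R * (1 / 2 : ℝ) ^ k) m v := Wa_mono p R α hα hδ.le h3 m v
    _ = ENNReal.ofReal ((2 ^ (k * s))⁻¹) * (ENNReal.ofReal (2 ^ (k * s)) *
          Wa p R α (R * (1 / 2 : ℝ) ^ k) m v) := by
        rw [← mul_assoc, ← ENNReal.ofReal_mul (by positivity), inv_mul_cancel₀ h6.ne',
          ENNReal.ofReal_one, one_mul]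
    _ ≤ _ := mul_le_mul' (ENNReal.ofReal_le_ofReal h5) h1

end Pool.Agent.H147R3.KM
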