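import Mathlib
import Pool.Agent.H147R3.KM.One
set_option autoImplicit false

/-! Schur's test by truncation, and Jensen's inequality. -/

namespace Pool.Agent.H147R3.KM

open MeasureTheory Set Metric
open scoped ENNReal

lemma mul_le_sq (a b : ℝ≥0∞) : a * b ≤ a ^ (2:ℝ) + b ^ (2:ℝ) := by
  rw [ENNReal.rpow_two, ENNReal.rpow_two, sq, sq]
  rcases le_total a b with h | h
  · exact (mul_le_mul' h le_rfl).trans le_add_self
  · exact (mul_le_mul' le_rfl h).trans le_self_add

lemma cross {V Y : Type*} [MeasurableSpace V] [MeasurableSpace Y] (α : Measure V)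
    [IsFiniteMeasure α] (β : Measure Y) [SFinite β] (A : V → Y → ℝ≥0∞)
    (hA : Measurable (Function.uncurry A)) (ρ : ℝ≥0∞) (W g k : V → ℝ≥0∞)
    (hgm : Measurable g) (hkm : Measurable k) (hgW : ∀ v, g v * W v ≤ k v)
    (hκ : ∀ᵐ v ∂α, ∫⁻ v', (∫⁻ y, A v y * A v' y ∂β) ∂α ≤ ρ * W v) :
    ∫⁻ y, (∫⁻ v, g v * A v y ∂α) ^ (2:ℝ) ∂β ≤ 2 * ρ * ∫⁻ v, g v * k v ∂α := by
  have hA1 : ∀ v, Measurable (A v) := fun v => hA.of_uncurry_left
  have hgA : Measurable (Function.uncurry fun v y => g v * A v y) :=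
    (hgm.comp measurable_fst).mul hA
  have hAA : Measurable fun z : (V × V) × Y => A z.1.1 z.2 * A z.1.2 z.2 := by
    have e1 : Measurable fun z : (V × V) × Y => A z.1.1 z.2 :=
      hA.comp ((measurable_fst.comp measurable_fst).prodMk measurable_snd)
    have e2 : Measurable fun z : (V × V) × Y => A z.1.2 z.2 :=
      hA.comp ((measurable_snd.comp measurable_fst).prodMk measurable_snd)
    exact e1.mul e2
  have hκm : Measurable fun w : V × V => ∫⁻ y, A w.1 y * A w.2 y ∂β :=
    hAA.lintegral_prod_right'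
  have hgg : Measurable fun z : (V × V) × Y =>
      (g z.1.1 ^ (2:ℝ) + g z.1.2 ^ (2:ℝ)) * (A z.1.1 z.2 * A z.1.2 z.2) :=
    ((((hgm.pow_const _).comp measurable_fst).comp measurable_fst).add
      (((hgm.pow_const _).comp measurable_snd).comp measurable_fst)).mul hAA
  calc ∫⁻ y, (∫⁻ v, g v * A v y ∂α) ^ (2:ℝ) ∂β = ∫⁻ y, (∫⁻ w : V × V, (g w.1 * A w.1 y) * (g w.2 * A w.2 y)
          ∂(α.prod α)) ∂β := by
        apply lintegral_congr
        intro y
        have hm1 : Measurable fun v => g v * A v y :=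
          hgA.comp (measurable_id.prodMk measurable_const)
        rw [lintegral_prod_mul hm1.aemeasurable hm1.aemeasurable, ENNReal.rpow_two, sq]
    _ ≤ ∫⁻ y, (∫⁻ w : V × V, (g w.1 ^ (2:ℝ) + g w.2 ^ (2:ℝ)) * (A w.1 y * A w.2 y)
          ∂(α.prod α)) ∂β := by
        refine lintegral_mono (fun y => lintegral_mono (fun w => ?_))
        calc (g w.1 * A w.1 y) * (g w.2 * A w.2 y) = (g w.1 * g w.2) * (A w.1 y * A w.2 y) := by
              ring
          _ ≤ _ := mul_le_mul' (mul_le_sq _ _) le_rfl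
    _ = ∫⁻ w : V × V, (∫⁻ y, (g w.1 ^ (2:ℝ) + g w.2 ^ (2:ℝ)) * (A w.1 y * A w.2 y)
          ∂β) ∂(α.prod α) := by
        have hm : Measurable (Function.uncurry fun (y : Y) (w : V × V) =>
          (g w.1 ^ (2:ℝ) + g w.2 ^ (2:ℝ)) * (A w.1 y * A w.2 y)) := hgg.comp measurable_swap
        exact lintegral_lintegral_swap hm.aemeasurable
    _ = ∫⁻ w : V × V, (g w.1 ^ (2:ℝ) + g w.2 ^ (2:ℝ)) * (∫⁻ y, A w.1 y * A w.2 y
          ∂β) ∂(α.prod α) := by
        apply lintegral_congr
        intro w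
        have hm : Measurable fun y => A w.1 y * A w.2 y := (hA1 w.1).mul (hA1 w.2)
        rw [lintegral_const_mul _ hm]
    _ = (∫⁻ w : V × V, g w.1 ^ (2:ℝ) * (∫⁻ y, A w.1 y * A w.2 y ∂β) ∂(α.prod α)) +
        ∫⁻ w : V × V, g w.2 ^ (2:ℝ) * (∫⁻ y, A w.1 y * A w.2 y ∂β) ∂(α.prod α) := by
        have hm : Measurable fun w : V × V =>
            g w.1 ^ (2:ℝ) * (∫⁻ y, A w.1 y * A w.2 y ∂β) :=
          ((hgm.pow_const _).comp measurable_fst).mul hκm
        rw [← lintegral_add_left hm]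
        apply lintegral_congr
        intro w
        ring
    _ = 2 * ∫⁻ w : V × V, g w.1 ^ (2:ℝ) * (∫⁻ y, A w.1 y * A w.2 y ∂β) ∂(α.prod α) := by
        rw [two_mul]
        congr 1
        rw [← lintegral_prod_swap]
        apply lintegral_congr
        intro w
        simp only [Prod.fst_swap, Prod.snd_swap]
        congr 1
        apply lintegral_congr
        intro y
        ring
    _ = 2 * ∫⁻ v, g v ^ (2:ℝ) * (∫⁻ v', (∫⁻ y, A v y * A v' y ∂β) ∂α) ∂α := by
        congr 1
        have hm0 : Measurable fun w : V × V =>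
            g w.1 ^ (2:ℝ) * (∫⁻ y, A w.1 y * A w.2 y ∂β) :=
          ((hgm.pow_const _).comp measurable_fst).mul hκm
        rw [lintegral_prod _ hm0.aemeasurable]
        apply lintegral_congr
        intro v
        have hm : Measurable fun v' => ∫⁻ y, A v y * A v' y ∂β :=
          hκm.comp (measurable_const.prodMk measurable_id)
        simp only
        rw [lintegral_const_mul _ hm]
    _ ≤ 2 * ∫⁻ v, ρ * (g v * k v) ∂α := by
        refine mul_le_mul' le_rfl (lintegral_mono_ae ?_)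
        filter_upwards [hκ] with v hv
        calc g v ^ (2:ℝ) * (∫⁻ v', (∫⁻ y, A v y * A v' y ∂β) ∂α) ≤
              g v ^ (2:ℝ) * (ρ * W v) := mul_le_mul' le_rfl hv
          _ = ρ * (g v * (g v * W v)) := by
              rw [ENNReal.rpow_two]
              ring
          _ ≤ _ := mul_le_mul' le_rfl (mul_le_mul' le_rfl (hgW v))
    _ = _ := by
        have hm : Measurable fun v => g v * k v := hgm.mul hkm
        rw [lintegral_const_mul _ hm]
        ring

/-- Schur's test, with a weight -/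
theorem schur {V Y : Type*} [MeasurableSpace V] [MeasurableSpace Y] (α : Measure V)
    [IsFiniteMeasure α] (β : Measure Y) [SFinite β] (A : V → Y → ℝ≥0∞)
    (hA : Measurable (Function.uncurry A)) (ρ : ℝ≥0∞) (W : V → ℝ≥0∞) (hW : Measurable W)
    (c : ℝ≥0∞) (hc : c ≠ 0) (hcW : ∀ v, c ≤ W v)
    (hκ : ∀ᵐ v ∂α, ∫⁻ v', (∫⁻ y, A v y * A v' y ∂β) ∂α ≤ ρ * W v)
    (f : Y → ℝ≥0∞) (hf : Measurable f) :
    ∫⁻ v, (∫⁻ y, A v y * f y ∂β) ^ (2:ℝ) / W v ∂α ≤ 2 * ρ * ∫⁻ y, f y ^ (2:ℝ) ∂β := by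
  have hAf : Measurable (Function.uncurry fun v y => A v y * f y) :=
    hA.mul (hf.comp measurable_snd)
  set K : V → ℝ≥0∞ := fun v => ∫⁻ y, A v y * f y ∂β with hK
  have hKm : Measurable K := hAf.lintegral_prod_right'
  have hA1 : ∀ v, Measurable (A v) := fun v => hA.of_uncurry_left
  have htrunc : ∀ N : ℕ, ∫⁻ v, (min (K v) N) ^ (2:ℝ) / W v ∂α ≤
      2 * ρ * ∫⁻ y, f y ^ (2:ℝ) ∂β := by
    intro N
    set k : V → ℝ≥0∞ := fun v => min (K v) N with hk
    have hkm : Measurable k := hKm.min measurable_const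
    set g : V → ℝ≥0∞ := fun v => k v / W v with hg
    have hgm : Measurable g := hkm.div hW
    have hkg : ∀ v, k v ^ (2:ℝ) / W v = g v * k v := by
      intro v
      rw [ENNReal.rpow_two, sq, hg]
      simp only
      rw [div_eq_mul_inv, div_eq_mul_inv]
      ring
    have hgW : ∀ v, g v * W v ≤ k v := by
      intro v
      rw [mul_comm]
      exact ENNReal.mul_div_le
    have e0 : ∫⁻ v, (min (K v) N) ^ (2:ℝ) / W v ∂α = ∫⁻ v, g v * k v ∂α :=
      lintegral_congr (fun v => hkg v)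
    rw [e0]
    set I : ℝ≥0∞ := ∫⁻ v, g v * k v ∂α with hI
    set F : ℝ≥0∞ := ∫⁻ y, f y ^ (2:ℝ) ∂β with hF
    have hIt : I ≠ ⊤ := by
      have h1 : I ≤ ∫⁻ _, (N : ℝ≥0∞) / c * N ∂α := by
        apply lintegral_mono
        intro v
        simp only
        refine mul_le_mul' ?_ (min_le_right _ _)
        exact ENNReal.div_le_div (min_le_right _ _) (hcW v)
      rw [lintegral_const] at h1
      exact ne_top_of_le_ne_top (ENNReal.mul_ne_top (ENNReal.mul_ne_top
        (ENNReal.div_ne_top (ENNReal.natCast_ne_top _) hc)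
        (ENNReal.natCast_ne_top _)) (measure_ne_top _ _)) h1
    set h : Y → ℝ≥0∞ := fun y => ∫⁻ v, g v * A v y ∂α with hh
    have hgA : Measurable (Function.uncurry fun v y => g v * A v y) :=
      (hgm.comp measurable_fst).mul hA
    have hhm : Measurable h := by
      have : Measurable fun z : Y × V => g z.2 * A z.2 z.1 := hgA.comp measurable_swap
      exact this.lintegral_prod_right'
    have h1 : I ≤ ∫⁻ y, f y * h y ∂β := by
      calc I ≤ ∫⁻ v, g v * K v ∂α := by
            apply lintegral_mono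
            intro v
            simp only
            exact mul_le_mul' le_rfl (min_le_left _ _)
        _ = ∫⁻ v, (∫⁻ y, f y * (g v * A v y) ∂β) ∂α := by
            apply lintegral_congr
            intro v
            have hm : Measurable fun y => A v y * f y := (hA1 v).mul hf
            have e0 : g v * K v = ∫⁻ y, g v * (A v y * f y) ∂β := by
              rw [lintegral_const_mul _ hm]
            rw [e0]
            apply lintegral_congr
            intro y
            ring
        _ = ∫⁻ y, (∫⁻ v, f y * (g v * A v y) ∂α) ∂β := by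
            have hm : Measurable (Function.uncurry fun v y => f y * (g v * A v y)) :=
              (hf.comp measurable_snd).mul hgA
            exact lintegral_lintegral_swap hm.aemeasurable
        _ = ∫⁻ y, f y * h y ∂β := by
            apply lintegral_congr
            intro y
            rw [lintegral_const_mul]
            exact hgA.comp (measurable_id.prodMk measurable_const)
    have h2 : ∫⁻ y, f y * h y ∂β ≤ F ^ (1 / (2:ℝ)) * (∫⁻ y, h y ^ (2:ℝ) ∂β) ^ (1 / (2:ℝ)) :=
      ENNReal.lintegral_mul_le_Lp_mul_Lq β Real.HolderConjugate.two_two hf.aemeasurable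
        hhm.aemeasurable
    have h3 : ∫⁻ y, h y ^ (2:ℝ) ∂β ≤ 2 * ρ * I :=
      cross α β A hA ρ W g k hgm hkm hgW hκ
    -- conclusion
    have h4 : I ≤ F ^ (1 / (2:ℝ)) * (2 * ρ * I) ^ (1 / (2:ℝ)) :=
      h1.trans (h2.trans (mul_le_mul' le_rfl (ENNReal.rpow_le_rpow h3 (by norm_num))))
    rcases eq_or_ne I 0 with h0 | h0
    · rw [h0]
      exact zero_le
    have h5 : I ^ (2:ℝ) ≤ F * (2 * ρ * I) := by
      calc I ^ (2:ℝ) ≤ (F ^ (1 / (2:ℝ)) * (2 * ρ * I) ^ (1 / (2:ℝ))) ^ (2:ℝ) :=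
            ENNReal.rpow_le_rpow h4 (by norm_num)
        _ = F * (2 * ρ * I) := by
            rw [ENNReal.mul_rpow_of_nonneg _ _ (by norm_num : (0:ℝ) ≤ 2), ← ENNReal.rpow_mul,
              ← ENNReal.rpow_mul]
            norm_num
    rw [ENNReal.rpow_two, sq] at h5
    have h6 : I * I ≤ (2 * ρ * F) * I := by
      calc I * I ≤ F * (2 * ρ * I) := h5
        _ = _ := by ring
    exact (ENNReal.mul_le_mul_iff_left h0 hIt).1 h6
  have hsup : ∀ v, K v ^ (2:ℝ) / W v = ⨆ N : ℕ, (min (K v) N) ^ (2:ℝ) / W v := by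
    intro v
    have hmono : Monotone fun N : ℕ => (min (K v) (N : ℝ≥0∞)) := by
      intro a b hab
      exact min_le_min_left _ (by exact_mod_cast hab)
    have h1 : ⨆ N : ℕ, (min (K v) (N : ℝ≥0∞)) = K v := by
      apply le_antisymm
      · exact iSup_le (fun N => min_le_left _ _)
      · rcases eq_or_ne (K v) ⊤ with ht | ht
        · rw [ht]
          simp only [min_eq_right le_top]
          exact ENNReal.iSup_natCast.ge
        · obtain ⟨N, hN⟩ := ENNReal.exists_nat_gt ht
          refine le_trans (le_of_eq ?_) (le_iSup _ N)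
          exact (min_eq_left hN.le).symm
    have h2 : K v ^ (2:ℝ) = (⨆ N : ℕ, (min (K v) (N : ℝ≥0∞))) ^ (2:ℝ) := by rw [h1]
    have h3 := (ENNReal.monotone_rpow_of_nonneg (by norm_num : (0:ℝ) ≤ 2)).map_ciSup_of_continuousAt
      (f := fun x : ℝ≥0∞ => x ^ (2:ℝ)) (g := fun N : ℕ => min (K v) (N : ℝ≥0∞))
      ENNReal.continuous_rpow_const.continuousAt (OrderTop.bddAbove _)
    have h4 : K v ^ (2:ℝ) = ⨆ N : ℕ, (min (K v) (N : ℝ≥0∞)) ^ (2:ℝ) := h2.trans h3
    rw [h4, ENNReal.iSup_div]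
  calc ∫⁻ v, K v ^ (2:ℝ) / W v ∂α = ∫⁻ v, ⨆ N : ℕ, (min (K v) N) ^ (2:ℝ) / W v ∂α := by
        apply lintegral_congr
        intro v
        exact hsup v
    _ = ⨆ N : ℕ, ∫⁻ v, (min (K v) N) ^ (2:ℝ) / W v ∂α := by
        apply lintegral_iSup
        · intro N
          exact ((hKm.min measurable_const).pow_const _).div hW
        · intro a b hab v
          simp only
          gcongr
    _ ≤ _ := iSup_le htrunc

/-- Jensen's inequality -/
lemma jensen {Y : Type*} [MeasurableSpace Y] (lam : Measure Y) (q : ℝ) (hq : 1 ≤ q) (f : Y → ℝ≥0∞)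
    (hf : Measurable f) :
    (∫⁻ y, f y ∂lam) ^ q ≤ (lam Set.univ) ^ (q - 1) * ∫⁻ y, f y ^ q ∂lam := by
  rcases eq_or_lt_of_le hq with h | h
  · rw [← h]
    simp
  · have hc : q.HolderConjugate (q / (q - 1)) := Real.HolderConjugate.conjExponent h
    have h1 := ENNReal.lintegral_mul_le_Lp_mul_Lq lam hc hf.aemeasurable
      (measurable_const (a := (1 : ℝ≥0∞))).aemeasurable
    simp only [Pi.mul_apply, mul_one, ENNReal.one_rpow, lintegral_const, one_mul] at h1
    have h2 : (∫⁻ y, f y ∂lam) ^ q ≤ ((∫⁻ y, f y ^ q ∂lam) ^ (1 / q) *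
        (lam Set.univ) ^ (1 / (q / (q - 1)))) ^ q := ENNReal.rpow_le_rpow h1 (by linarith)
    refine h2.trans (le_of_eq ?_)
    rw [ENNReal.mul_rpow_of_nonneg _ _ (by linarith), ← ENNReal.rpow_mul, ← ENNReal.rpow_mul,
      mul_comm]
    have e1 : 1 / q * q = 1 := by field_simp
    have e2 : 1 / (q / (q - 1)) * q = q - 1 := by
      have : q - 1 ≠ 0 := by linarith
      field_simp
    rw [e1, e2, ENNReal.rpow_one]

end Pool.Agent.H147R3.KM
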