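import Mathlib
import Pool.Agent.H147R3.KM.Two
import Pool.Agent.H147R3.KM.Five
set_option autoImplicit false

/-! The estimate for one family, from a bound of the weighted row sums. -/

namespace Pool.Agent.H147R3.KM

open MeasureTheory Set Metric
open scoped ENNReal
open Pool.Agent.H147R3.KH

variable {d : ℕ}

/-- weighted Jensen inequality -/
lemma wjensen {Y : Type*} [MeasurableSpace Y] (lam : Measure Y) (q e : ℝ) (hq : 1 ≤ q)
    (w : Y → ℝ) (hw : Measurable w) (hw0 : ∀ y, 0 < w y) (f : Y → ℝ≥0∞) (hf : Measurable f) :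
    (∫⁻ y, f y ∂lam) ^ q ≤ (∫⁻ y, ENNReal.ofReal (w y ^ (-e)) ∂lam) ^ (q - 1) *
      ∫⁻ y, ENNReal.ofReal (w y ^ (e * (q - 1))) * f y ^ q ∂lam := by
  have hm1 : Measurable fun y => ENNReal.ofReal (w y ^ (-e)) := by fun_prop
  have hm2 : Measurable fun y => ENNReal.ofReal (w y ^ e) * f y := by fun_prop
  have h := jensen (lam.withDensity fun y => ENNReal.ofReal (w y ^ (-e))) q hq
    (fun y => ENNReal.ofReal (w y ^ e) * f y) hm2
  have e1 : ∫⁻ y, ENNReal.ofReal (w y ^ e) * f y ∂(lam.withDensity fun y =>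
      ENNReal.ofReal (w y ^ (-e))) = ∫⁻ y, f y ∂lam := by
    rw [lintegral_withDensity_eq_lintegral_mul _ hm1 hm2]
    apply lintegral_congr
    intro y
    simp only [Pi.mul_apply]
    rw [← mul_assoc, ← ENNReal.ofReal_mul (by have := hw0 y; positivity), ← Real.rpow_add (hw0 y)]
    simp
  have e2 : (lam.withDensity fun y => ENNReal.ofReal (w y ^ (-e))) Set.univ =
      ∫⁻ y, ENNReal.ofReal (w y ^ (-e)) ∂lam := by
    rw [withDensity_apply _ MeasurableSet.univ, Measure.restrict_univ]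
  have e3 : ∫⁻ y, (ENNReal.ofReal (w y ^ e) * f y) ^ q ∂(lam.withDensity fun y =>
      ENNReal.ofReal (w y ^ (-e))) =
      ∫⁻ y, ENNReal.ofReal (w y ^ (e * (q - 1))) * f y ^ q ∂lam := by
    rw [lintegral_withDensity_eq_lintegral_mul _ hm1 (hm2.pow_const q)]
    apply lintegral_congr
    intro y
    have hy := hw0 y
    simp only [Pi.mul_apply]
    rw [ENNReal.mul_rpow_of_nonneg _ _ (by linarith : (0:ℝ) ≤ q),
      ENNReal.ofReal_rpow_of_nonneg (by positivity) (by linarith), ← mul_assoc,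
      ← ENNReal.ofReal_mul (by positivity), ← Real.rpow_mul hy.le, ← Real.rpow_add hy]
    congr 3
    ring
  rw [e1, e2, e3] at h
  exact h

/-- the tube with square cross-sections around line number `v` -/
def tb (p : (Fin (d + 2) → ℝ) → (Fin (d + 2) → ℝ)) (R δ : ℝ) (m : Fin (d + 1) → ℝ)
    (v : Fin (d + 2) → ℝ) : Set ((Fin (d + 2) → ℝ) × ℝ) :=
  {y | |y.2| ≤ R ∧ ∀ j, |y.1 j - (gam p m (v, y.2)).1 j| ≤ δ}

lemma tb_jm {p : (Fin (d + 2) → ℝ) → (Fin (d + 2) → ℝ)} (hp : Measurable p) (R δ : ℝ)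
    (m : Fin (d + 1) → ℝ) : MeasurableSet {z : (Fin (d + 2) → ℝ) × ((Fin (d + 2) → ℝ) × ℝ) |
      z.2 ∈ tb p R δ m z.1} := by
  have h1 : {z : (Fin (d + 2) → ℝ) × ((Fin (d + 2) → ℝ) × ℝ) | z.2 ∈ tb p R δ m z.1} =
      {z | |z.2.2| ≤ R} ∩ ⋂ j, {z | |z.2.1 j - (gam p m (z.1, z.2.2)).1 j| ≤ δ} := by
    ext z
    simp [tb]
  rw [h1]
  have h2 : Measurable fun z : (Fin (d + 2) → ℝ) × ((Fin (d + 2) → ℝ) × ℝ) => z.2.2 :=
    measurable_snd.comp measurable_snd
  have h3 : Measurable fun z : (Fin (d + 2) → ℝ) × ((Fin (d + 2) → ℝ) × ℝ) =>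
      (gam p m (z.1, z.2.2)).1 :=
    measurable_fst.comp ((gam_m hp m).comp (measurable_fst.prodMk h2))
  refine (measurableSet_le h2.abs measurable_const).inter (MeasurableSet.iInter (fun j => ?_))
  have h4 : Measurable fun z : (Fin (d + 2) → ℝ) × ((Fin (d + 2) → ℝ) × ℝ) => z.2.1 j :=
    (measurable_pi_apply j).comp (measurable_fst.comp measurable_snd)
  have h5 : Measurable fun z : (Fin (d + 2) → ℝ) × ((Fin (d + 2) → ℝ) × ℝ) =>
      (gam p m (z.1, z.2.2)).1 j := (measurable_pi_apply j).comp h3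
  exact measurableSet_le ((h4.sub h5).abs) measurable_const

lemma tb_m {p : (Fin (d + 2) → ℝ) → (Fin (d + 2) → ℝ)} (hp : Measurable p) (R δ : ℝ)
    (m : Fin (d + 1) → ℝ) (v : Fin (d + 2) → ℝ) : MeasurableSet (tb p R δ m v) := by
  have h1 : Measurable fun y : (Fin (d + 2) → ℝ) × ℝ => (v, y) :=
    measurable_const.prodMk measurable_id
  exact h1 (tb_jm hp R δ m)

/-- volume of the square -/
lemma vol_sq (x : Fin (d + 2) → ℝ) (δ : ℝ) (hδ : 0 ≤ δ) :
    volume {z : Fin (d + 2) → ℝ | ∀ j, |z j - x j| ≤ δ} = ENNReal.ofReal ((2 * δ) ^ (d + 2)) := by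
  have h1 : {z : Fin (d + 2) → ℝ | ∀ j, |z j - x j| ≤ δ} =
      Set.univ.pi (fun j => Icc (x j - δ) (x j + δ)) := by
    ext z
    simp only [mem_ofPred_eq, Set.mem_pi, Set.mem_univ, true_implies, mem_Icc, abs_le]
    refine forall_congr' (fun j => ?_)
    constructor <;> rintro ⟨h1, h2⟩ <;> constructor <;> linarith
  rw [h1, volume_pi_pi]
  simp only [Real.volume_Icc]
  rw [ENNReal.ofReal_pow (by positivity)]
  have : ∀ j, x j + δ - (x j - δ) = 2 * δ := fun j => by ring
  simp [this]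

/-- integral of a function of the height over the tube -/
lemma tb_int {p : (Fin (d + 2) → ℝ) → (Fin (d + 2) → ℝ)} (hp : Measurable p) (R δ : ℝ)
    (hδ : 0 ≤ δ) (m : Fin (d + 1) → ℝ) (v : Fin (d + 2) → ℝ) (h : ℝ → ℝ≥0∞) (hh : Measurable h) :
    ∫⁻ y in tb p R δ m v, h y.2 =
      ENNReal.ofReal ((2 * δ) ^ (d + 2)) * ∫⁻ t in Icc (-R) R, h t := by
  have hT := tb_m hp R δ m v
  have hm : Measurable fun y : (Fin (d + 2) → ℝ) × ℝ =>
      (tb p R δ m v).indicator (fun y => h y.2) y := (hh.comp measurable_snd).indicator hT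
  rw [← lintegral_indicator hT, Measure.volume_eq_prod, lintegral_prod_symm _ hm.aemeasurable,
    ← lintegral_indicator measurableSet_Icc, ← lintegral_const_mul _ (hh.indicator measurableSet_Icc)]
  apply lintegral_congr
  intro t
  by_cases ht : t ∈ Icc (-R) R
  · rw [indicator_of_mem ht]
    have hS : MeasurableSet {x : Fin (d + 2) → ℝ | ∀ j, |x j - (gam p m (v, t)).1 j| ≤ δ} := by
      have h1 : {x : Fin (d + 2) → ℝ | ∀ j, |x j - (gam p m (v, t)).1 j| ≤ δ} =
          ⋂ j, {x : Fin (d + 2) → ℝ | |x j - (gam p m (v, t)).1 j| ≤ δ} := by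
        ext x
        simp
      rw [h1]
      refine MeasurableSet.iInter (fun j => ?_)
      exact measurableSet_le (((measurable_pi_apply j).sub measurable_const).abs) measurable_const
    calc ∫⁻ x, (tb p R δ m v).indicator (fun y => h y.2) (x, t) =
          ∫⁻ x, ({x : Fin (d + 2) → ℝ | ∀ j, |x j - (gam p m (v, t)).1 j| ≤ δ}).indicator
            (fun _ => h t) x := by
          apply lintegral_congr
          intro x
          by_cases hx : x ∈ {x : Fin (d + 2) → ℝ | ∀ j, |x j - (gam p m (v, t)).1 j| ≤ δ}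
          · have h2 : (x, t) ∈ tb p R δ m v := ⟨abs_le.2 ht, hx⟩
            rw [indicator_of_mem hx, indicator_of_mem h2]
          · have h2 : (x, t) ∉ tb p R δ m v := fun h' => hx h'.2
            rw [indicator_of_notMem hx, indicator_of_notMem h2]
      _ = _ := by
          rw [lintegral_indicator hS, setLIntegral_const, vol_sq _ δ hδ, mul_comm]
  · rw [indicator_of_notMem ht, mul_zero]
    have h3 : ∀ x : Fin (d + 2) → ℝ, (tb p R δ m v).indicator (fun y => h y.2) (x, t) = 0 := by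
      intro x
      have h2 : (x, t) ∉ tb p R δ m v := fun h' => ht (abs_le.1 h'.1)
      exact indicator_of_notMem h2 _
    simp only [h3, lintegral_zero]

/-- the weight of the tube -/
lemma wt_le (R e : ℝ) (hR : 1 ≤ R) (he0 : 0 ≤ e) (he : e < 1) : ∃ C : ℝ, 0 < C ∧
    ∀ δ : ℝ, 0 < δ → δ ≤ R →
    ∫⁻ t in Icc (-R) R, ENNReal.ofReal ((δ + |t|) ^ (-e)) ≤ ENNReal.ofReal C := by
  have hR0 : 0 < R := by linarith
  obtain ⟨C, hC0, hC⟩ := int1 e R he hR
  refine ⟨C, hC0, ?_⟩
  intro δ hδ hδR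
  have hm : Measurable fun a : ℝ => ENNReal.ofReal ((1 + 1 / R / δ * |a|) ^ (-e)) := by fun_prop
  calc ∫⁻ t in Icc (-R) R, ENNReal.ofReal ((δ + |t|) ^ (-e)) ≤
        ∫⁻ t in Icc (-R) R, ENNReal.ofReal (δ ^ (-e)) *
          ENNReal.ofReal ((1 + 1 / R / δ * |t|) ^ (-e)) := by
        apply lintegral_mono
        intro t
        simp only
        rw [← ENNReal.ofReal_mul (by positivity)]
        apply ENNReal.ofReal_le_ofReal
        rw [← Real.mul_rpow hδ.le (by positivity)]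
        have h1 : 0 ≤ |t| := abs_nonneg t
        have h2 : δ * (1 + 1 / R / δ * |t|) = δ + |t| / R := by
          field_simp
        have h3 : |t| / R ≤ |t| := div_le_self h1 hR
        have h4 : 0 < δ * (1 + 1 / R / δ * |t|) := by positivity
        exact Real.rpow_le_rpow_of_nonpos h4 (by rw [h2]; linarith) (by linarith)
    _ = ENNReal.ofReal (δ ^ (-e)) *
        ∫⁻ t in Icc (-R) R, ENNReal.ofReal ((1 + 1 / R / δ * |t|) ^ (-e)) :=
        lintegral_const_mul _ hm
    _ ≤ ENNReal.ofReal (δ ^ (-e)) * ENNReal.ofReal (C * δ ^ e) := by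
        refine mul_le_mul' le_rfl ((lintegral_mono_set ?_).trans (hC δ hδ hδR))
        exact Icc_subset_Icc (by linarith) (by linarith)
    _ = _ := by
        rw [← ENNReal.ofReal_mul (by positivity)]
        congr 1
        rw [mul_comm C, ← mul_assoc, ← Real.rpow_add hδ]
        simp

end Pool.Agent.H147R3.KM
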