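import Mathlib
import Pool.Agent.H147R3.KM.Six
set_option autoImplicit false

/-! The estimate for one family: Schur's test. -/

namespace Pool.Agent.H147R3.KM

open MeasureTheory Set Metric
open scoped ENNReal
open Pool.Agent.H147R3.KH

variable {d : ℕ}

/-- the kernel -/
noncomputable def Kr (p : (Fin (d + 2) → ℝ) → (Fin (d + 2) → ℝ)) (R δ b : ℝ)
    (m : Fin (d + 1) → ℝ) (v : Fin (d + 2) → ℝ) (y : (Fin (d + 2) → ℝ) × ℝ) : ℝ≥0∞ :=
  (tb p R δ m v).indicator (fun y => ENNReal.ofReal ((δ + |y.2|) ^ b)) y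

lemma Kr_unc {p : (Fin (d + 2) → ℝ) → (Fin (d + 2) → ℝ)} (hp : Measurable p) (R δ b : ℝ)
    (m : Fin (d + 1) → ℝ) : Measurable (Function.uncurry (Kr p R δ b m)) := by
  have h1 : Measurable fun z : (Fin (d + 2) → ℝ) × ((Fin (d + 2) → ℝ) × ℝ) =>
      ENNReal.ofReal ((δ + |z.2.2|) ^ b) := by fun_prop
  have h2 := h1.indicator (tb_jm hp R δ m)
  have h3 : Function.uncurry (Kr p R δ b m) = fun z : (Fin (d + 2) → ℝ) ×
      ((Fin (d + 2) → ℝ) × ℝ) => ({z : (Fin (d + 2) → ℝ) × ((Fin (d + 2) → ℝ) × ℝ) |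
      z.2 ∈ tb p R δ m z.1}).indicator (fun z => ENNReal.ofReal ((δ + |z.2.2|) ^ b)) z := by
    ext z
    by_cases h : z.2 ∈ tb p R δ m z.1
    · have h' : z ∈ {z : (Fin (d + 2) → ℝ) × ((Fin (d + 2) → ℝ) × ℝ) |
        z.2 ∈ tb p R δ m z.1} := h
      rw [indicator_of_mem h']
      simp only [Function.uncurry, Kr]
      rw [indicator_of_mem h]
    · have h' : z ∉ {z : (Fin (d + 2) → ℝ) × ((Fin (d + 2) → ℝ) × ℝ) |
        z.2 ∈ tb p R δ m z.1} := h
      rw [indicator_of_notMem h']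
      simp only [Function.uncurry, Kr]
      rw [indicator_of_notMem h]
  rw [h3]
  exact h2

lemma mem_S2 (p : (Fin (d + 2) → ℝ) → (Fin (d + 2) → ℝ)) (R δ : ℝ) (m : Fin (d + 1) → ℝ)
    (v v' : Fin (d + 2) → ℝ) (y : (Fin (d + 2) → ℝ) × ℝ) (h : y ∈ tb p R δ m v)
    (h' : y ∈ tb p R δ m v') : (m, ((v, y.2), v')) ∈ S2 p δ := by
  have key : ∀ j, |(gam p m (v, y.2)).1 j - (gam p m (v', y.2)).1 j| ≤ 2 * δ := by
    intro j
    have h1 := h.2 j
    have h2 := h'.2 j
    rw [abs_le] at h1 h2 ⊢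
    constructor <;> linarith [h1.1, h1.2, h2.1, h2.2]
  refine ⟨?_, fun j => ?_⟩
  · have h0 := key 0
    simp only [gam, Fin.cons_zero, one_mul] at h0
    have e : p v 0 + y.2 * v 0 - (p v' 0 + y.2 * v' 0) =
        (p v 0 - p v' 0) + y.2 * (v 0 - v' 0) := by ring
    rw [e] at h0
    exact h0
  · have h0 := key j.succ
    simp only [gam, Fin.cons_succ] at h0
    have e : m j * p v j.succ + y.2 * v j.succ - (m j * p v' j.succ + y.2 * v' j.succ) =
        m j * (p v j.succ - p v' j.succ) + y.2 * (v j.succ - v' j.succ) := by ring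
    rw [e] at h0
    exact h0

lemma row {p : (Fin (d + 2) → ℝ) → (Fin (d + 2) → ℝ)} (hp : Measurable p) (R δ b α : ℝ)
    (hR : 1 ≤ R) (hδ : 0 < δ) (hδR : δ ≤ R) (hαb : α ≤ 2 * b)
    (m : Fin (d + 1) → ℝ) (v : Fin (d + 2) → ℝ) (G : Set (Fin (d + 2) → ℝ)) (hG : G ⊆ Bx d R) :
    ∫⁻ v' in G, (∫⁻ y, Kr p R δ b m v y * Kr p R δ b m v' y) ≤
      ENNReal.ofReal ((2 * δ) ^ (d + 2) * (2 * R) ^ (2 * b - α)) * Wa p R α δ m v := by
  have hR0 : 0 < R := by linarith
  have hchi : Measurable fun y : (Fin (d + 1) → ℝ) × (((Fin (d + 2) → ℝ) × ℝ) × (Fin (d + 2) → ℝ))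
      => (S2 p δ).indicator (fun _ => (1 : ℝ≥0∞)) y := measurable_const.indicator (S2_meas hp δ)
  have hchi1 : Measurable fun z : ℝ × (Fin (d + 2) → ℝ) =>
      (S2 p δ).indicator (fun _ => (1 : ℝ≥0∞)) (m, ((v, z.1), z.2)) :=
    hchi.comp (by fun_prop : Measurable fun z : ℝ × (Fin (d + 2) → ℝ) => ((m, ((v, z.1), z.2)) :
      (Fin (d + 1) → ℝ) × (((Fin (d + 2) → ℝ) × ℝ) × (Fin (d + 2) → ℝ))))
  have hw : Measurable fun t : ℝ => ENNReal.ofReal ((2 * R) ^ (2 * b - α) * (δ + |t|) ^ α) := by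
    fun_prop
  have hH : Measurable fun z : ℝ × (Fin (d + 2) → ℝ) =>
      ENNReal.ofReal ((2 * R) ^ (2 * b - α) * (δ + |z.1|) ^ α) *
      (S2 p δ).indicator (fun _ => (1 : ℝ≥0∞)) (m, ((v, z.1), z.2)) :=
    (hw.comp measurable_fst).mul hchi1
  have hstep : ∀ v', ∫⁻ y, Kr p R δ b m v y * Kr p R δ b m v' y ≤
      ENNReal.ofReal ((2 * δ) ^ (d + 2)) * ∫⁻ t in Icc (-R) R,
      ENNReal.ofReal ((2 * R) ^ (2 * b - α) * (δ + |t|) ^ α) *
      (S2 p δ).indicator (fun _ => (1 : ℝ≥0∞)) (m, ((v, t), v')) := by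
    intro v'
    have hh : Measurable fun t : ℝ => ENNReal.ofReal ((2 * R) ^ (2 * b - α) * (δ + |t|) ^ α) *
      (S2 p δ).indicator (fun _ => (1 : ℝ≥0∞)) (m, ((v, t), v')) := by
      have hz : Measurable fun t : ℝ => ((m, ((v, t), v')) :
        (Fin (d + 1) → ℝ) × (((Fin (d + 2) → ℝ) × ℝ) × (Fin (d + 2) → ℝ))) := by fun_prop
      exact hw.mul (hchi.comp hz)
    rw [← tb_int hp R δ hδ.le m v _ hh, ← lintegral_indicator (tb_m hp R δ m v)]
    apply lintegral_mono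
    intro y
    simp only
    by_cases h : y ∈ tb p R δ m v
    · by_cases h' : y ∈ tb p R δ m v'
      · rw [indicator_of_mem h]
        unfold Kr
        rw [indicator_of_mem h, indicator_of_mem h', indicator_of_mem (mem_S2 p R δ m v v' y h h'),
          mul_one, ← ENNReal.ofReal_mul (by positivity)]
        apply ENNReal.ofReal_le_ofReal
        have h0 : 0 ≤ |y.2| := abs_nonneg _
        have h1 : 0 < δ + |y.2| := by linarith
        have h2 : δ + |y.2| ≤ 2 * R := by linarith [h.1]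
        rw [← Real.rpow_add h1]
        calc (δ + |y.2|) ^ (b + b) = (δ + |y.2|) ^ (2 * b - α) * (δ + |y.2|) ^ α := by
              rw [← Real.rpow_add h1]
              congr 1
              ring
          _ ≤ _ := by
              have h3 : 0 ≤ 2 * b - α := by linarith
              gcongr
      · unfold Kr
        rw [indicator_of_notMem h', mul_zero]
        exact zero_le
    · unfold Kr
      rw [indicator_of_notMem h, zero_mul]
      exact zero_le
  have hH2 : Measurable (Function.uncurry fun (t : ℝ) (v' : Fin (d + 2) → ℝ) =>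
      ENNReal.ofReal ((2 * R) ^ (2 * b - α) * (δ + |t|) ^ α) *
      (S2 p δ).indicator (fun _ => (1 : ℝ≥0∞)) (m, ((v, t), v'))) := hH
  have hinn : Measurable fun v' : Fin (d + 2) → ℝ => ∫⁻ t in Icc (-R) R,
      ENNReal.ofReal ((2 * R) ^ (2 * b - α) * (δ + |t|) ^ α) *
      (S2 p δ).indicator (fun _ => (1 : ℝ≥0∞)) (m, ((v, t), v')) :=
    (hH.comp measurable_swap).lintegral_prod_right'
  calc ∫⁻ v' in G, (∫⁻ y, Kr p R δ b m v y * Kr p R δ b m v' y) ≤
        ∫⁻ v' in Bx d R, (∫⁻ y, Kr p R δ b m v y * Kr p R δ b m v' y) := lintegral_mono_set hG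
    _ ≤ ∫⁻ v' in Bx d R, ENNReal.ofReal ((2 * δ) ^ (d + 2)) * ∫⁻ t in Icc (-R) R,
        ENNReal.ofReal ((2 * R) ^ (2 * b - α) * (δ + |t|) ^ α) *
        (S2 p δ).indicator (fun _ => (1 : ℝ≥0∞)) (m, ((v, t), v')) := lintegral_mono hstep
    _ = ENNReal.ofReal ((2 * δ) ^ (d + 2)) * ∫⁻ t in Icc (-R) R, (∫⁻ v' in Bx d R,
        ENNReal.ofReal ((2 * R) ^ (2 * b - α) * (δ + |t|) ^ α) *
        (S2 p δ).indicator (fun _ => (1 : ℝ≥0∞)) (m, ((v, t), v'))) := by
        rw [lintegral_const_mul _ hinn, lintegral_lintegral_swap hH2.aemeasurable]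
    _ = ENNReal.ofReal ((2 * δ) ^ (d + 2)) * ∫⁻ t in Icc (-R) R,
        ENNReal.ofReal ((2 * R) ^ (2 * b - α)) *
        (ENNReal.ofReal ((δ + |t|) ^ α) * cl p R δ m v t) := by
        congr 1
        apply lintegral_congr
        intro t
        have h1 : Measurable fun v' : Fin (d + 2) → ℝ =>
            (S2 p δ).indicator (fun _ => (1 : ℝ≥0∞)) (m, ((v, t), v')) :=
          hchi1.comp (measurable_const.prodMk measurable_id)
        rw [lintegral_const_mul _ h1, ENNReal.ofReal_mul (by positivity), mul_assoc]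
        rfl
    _ = _ := by
        have h1 : Measurable fun t : ℝ => ENNReal.ofReal ((δ + |t|) ^ α) * cl p R δ m v t := by
          have : Measurable fun t : ℝ => ENNReal.ofReal ((δ + |t|) ^ α) := by fun_prop
          exact this.mul (cl_t hp R δ m v)
        rw [lintegral_const_mul _ h1, ← mul_assoc, ← ENNReal.ofReal_mul (by positivity)]
        rfl

theorem fixm (d : ℕ) (R r e α : ℝ) (hR : 1 ≤ R) (hr : 2 ≤ r) (he0 : 0 ≤ e) (he : e < 1)
    (hαe : α ≤ e * (r - 2)) :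
    ∃ C : ℝ, 0 < C ∧ ∀ (p : (Fin (d + 2) → ℝ) → (Fin (d + 2) → ℝ)) (_ : Measurable p)
    (m : Fin (d + 1) → ℝ) (δ : ℝ) (_ : 0 < δ) (_ : δ ≤ R) (G : Set (Fin (d + 2) → ℝ))
    (_ : MeasurableSet G) (_ : G ⊆ Bx d R) (W : (Fin (d + 2) → ℝ) → ℝ≥0∞) (_ : Measurable W)
    (c : ℝ≥0∞) (_ : c ≠ 0) (_ : ∀ v, c ≤ W v) (w : ℝ≥0∞) (_ : ∀ v ∈ G, Wa p R α δ m v ≤ w * W v)
    (f : (Fin (d + 2) → ℝ) × ℝ → ℝ≥0∞) (_ : Measurable f),
    ∫⁻ v in G, (∫⁻ y in tb p R δ m v, f y) ^ r / W v ≤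
      ENNReal.ofReal (C * δ ^ (((d : ℝ) + 2) * (r - 1))) * w * ∫⁻ y, f y ^ r := by
  have hR0 : 0 < R := by linarith
  obtain ⟨C1, hC10, hC1⟩ := wt_le R e hR he0 he
  refine ⟨2 ^ (((d : ℝ) + 2) * (r - 1)) * C1 ^ (r - 2) * (2 * (2 * R) ^ (e * (r - 2) - α)),
    by positivity, ?_⟩
  intro p hp m δ hδ hδR G hG hGB W hWm c hc hcW w hw f hf
  set q : ℝ := r / 2 with hq
  have hq1 : 1 ≤ q := by rw [hq]; linarith
  set b : ℝ := e * (q - 1) with hb
  have h2b : 2 * b = e * (r - 2) := by rw [hb, hq]; ring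
  have hKm := Kr_unc hp R δ b m
  have hfq : Measurable fun y => f y ^ q := hf.pow_const q
  -- the pointwise inequality
  have hpt : ∀ v, (∫⁻ y in tb p R δ m v, f y) ^ r ≤
      ENNReal.ofReal (((2 * δ) ^ (d + 2) * C1) ^ (r - 2)) *
        (∫⁻ y, Kr p R δ b m v y * f y ^ q) ^ (2 : ℝ) := by
    intro v
    have hJ := wjensen (volume.restrict (tb p R δ m v)) q e hq1 (fun y => δ + |y.2|)
      (by fun_prop) (fun y => by have := abs_nonneg y.2; linarith) f hf
    have hh : Measurable fun t : ℝ => ENNReal.ofReal ((δ + |t|) ^ (-e)) := by fun_prop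
    have h1 : ∫⁻ y in tb p R δ m v, ENNReal.ofReal ((δ + |y.2|) ^ (-e)) ≤
        ENNReal.ofReal ((2 * δ) ^ (d + 2) * C1) := by
      rw [tb_int hp R δ hδ.le m v _ hh, ENNReal.ofReal_mul (by positivity)]
      exact mul_le_mul' le_rfl (hC1 δ hδ hδR)
    have h2 : ∫⁻ y in tb p R δ m v, ENNReal.ofReal ((δ + |y.2|) ^ (e * (q - 1))) * f y ^ q =
        ∫⁻ y, Kr p R δ b m v y * f y ^ q := by
      rw [← lintegral_indicator (tb_m hp R δ m v)]
      apply lintegral_congr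
      intro y
      unfold Kr
      by_cases h : y ∈ tb p R δ m v
      · rw [indicator_of_mem h, indicator_of_mem h]
      · rw [indicator_of_notMem h, indicator_of_notMem h, zero_mul]
    rw [h2] at hJ
    calc (∫⁻ y in tb p R δ m v, f y) ^ r = ((∫⁻ y in tb p R δ m v, f y) ^ q) ^ (2 : ℝ) := by
          rw [← ENNReal.rpow_mul]
          congr 1
          rw [hq]
          ring
      _ ≤ ((ENNReal.ofReal ((2 * δ) ^ (d + 2) * C1)) ^ (q - 1) *
            ∫⁻ y, Kr p R δ b m v y * f y ^ q) ^ (2 : ℝ) := by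
          refine ENNReal.rpow_le_rpow (hJ.trans (mul_le_mul' ?_ le_rfl)) (by norm_num)
          exact ENNReal.rpow_le_rpow h1 (by linarith)
      _ = _ := by
          rw [ENNReal.mul_rpow_of_nonneg _ _ (by norm_num : (0:ℝ) ≤ 2), ← ENNReal.rpow_mul,
            ENNReal.ofReal_rpow_of_nonneg (by positivity) (by nlinarith)]
          congr 3
          rw [hq]
          ring
  have hfin : IsFiniteMeasure (volume.restrict G) := by
    constructor
    rw [Measure.restrict_apply_univ]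
    refine (measure_mono hGB).trans_lt ?_
    rw [vol_Bx R hR0.le]
    exact ENNReal.ofReal_lt_top
  have hS := schur (volume.restrict G) (volume : Measure ((Fin (d + 2) → ℝ) × ℝ))
    (Kr p R δ b m) hKm (ENNReal.ofReal ((2 * δ) ^ (d + 2) * (2 * R) ^ (2 * b - α)) * w)
    W hWm c hc hcW (by
      rw [ae_restrict_iff' hG]
      filter_upwards with v hv
      rw [mul_assoc]
      exact (row hp R δ b α hR hδ hδR (by rw [h2b]; exact hαe) m v G hGB).trans
        (mul_le_mul' le_rfl (hw v hv))) (fun y => f y ^ q) hfq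
  calc ∫⁻ v in G, (∫⁻ y in tb p R δ m v, f y) ^ r / W v ≤
        ∫⁻ v in G, ENNReal.ofReal (((2 * δ) ^ (d + 2) * C1) ^ (r - 2)) *
        ((∫⁻ y, Kr p R δ b m v y * f y ^ q) ^ (2 : ℝ) / W v) := by
        apply lintegral_mono
        intro v
        simp only
        rw [← mul_div_assoc]
        exact ENNReal.div_le_div_right (hpt v) _
    _ = ENNReal.ofReal (((2 * δ) ^ (d + 2) * C1) ^ (r - 2)) * ∫⁻ v in G,
        (∫⁻ y, Kr p R δ b m v y * f y ^ q) ^ (2 : ℝ) / W v :=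
        lintegral_const_mul' _ _ ENNReal.ofReal_ne_top
    _ ≤ ENNReal.ofReal (((2 * δ) ^ (d + 2) * C1) ^ (r - 2)) *
        (2 * (ENNReal.ofReal ((2 * δ) ^ (d + 2) * (2 * R) ^ (2 * b - α)) * w) *
        ∫⁻ y, (f y ^ q) ^ (2 : ℝ)) := mul_le_mul' le_rfl hS
    _ = _ := by
        have e1 : ∫⁻ y, (f y ^ q) ^ (2 : ℝ) = ∫⁻ y, f y ^ r := by
          apply lintegral_congr
          intro y
          rw [← ENNReal.rpow_mul]
          congr 1
          rw [hq]
          ring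
        have e2 : (2 : ℝ≥0∞) = ENNReal.ofReal 2 := by norm_num
        rw [e1, e2, ← mul_assoc, ← mul_assoc, ← mul_assoc, ← ENNReal.ofReal_mul (by positivity),
          ← ENNReal.ofReal_mul (by positivity)]
        congr 3
        have e3 : ((2 * δ) ^ (d + 2) * C1) ^ (r - 2) =
            (2 * δ) ^ (((d : ℝ) + 2) * (r - 2)) * C1 ^ (r - 2) := by
          rw [Real.mul_rpow (by positivity) hC10.le, ← Real.rpow_natCast,
            ← Real.rpow_mul (by positivity)]
          push_cast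
          rfl
        have e4 : (2 * δ) ^ (d + 2) = (2 * δ) ^ ((d : ℝ) + 2) := by
          rw [← Real.rpow_natCast]
          push_cast
          rfl
        have e5 : (2 * δ) ^ (((d : ℝ) + 2) * (r - 2)) * (2 * δ) ^ ((d : ℝ) + 2) =
            2 ^ (((d : ℝ) + 2) * (r - 1)) * δ ^ (((d : ℝ) + 2) * (r - 1)) := by
          rw [← Real.rpow_add (by positivity), ← Real.mul_rpow (by norm_num) hδ.le]
          congr 1
          ring
        rw [e3, e4, h2b]
        calc (2 * δ) ^ (((d : ℝ) + 2) * (r - 2)) * C1 ^ (r - 2) * 2 *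
              ((2 * δ) ^ ((d : ℝ) + 2) * (2 * R) ^ (e * (r - 2) - α)) =
              ((2 * δ) ^ (((d : ℝ) + 2) * (r - 2)) * (2 * δ) ^ ((d : ℝ) + 2)) *
              C1 ^ (r - 2) * (2 * (2 * R) ^ (e * (r - 2) - α)) := by ring
          _ = _ := by
              rw [e5]
              ring

end Pool.Agent.H147R3.KM
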