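import Mathlib
import Pool.Agent.H147R3.KM.Seven
set_option autoImplicit false

/-! The maximal estimates for families with generically dilated positions. -/

namespace Pool.Agent.H147R3.KM

open MeasureTheory Set Metric
open scoped ENNReal NNReal
open Pool.Agent.H147R3.KH

variable {d : ℕ}

/-- weights -/
noncomputable def al (γ : ℝ) (i : ℕ) : ℝ := γ * (i / (i + 1))

/-- exponents -/
noncomputable def ss (γ : ℝ) (i : ℕ) : ℝ := 1 + al γ i - 1 / (i + 1)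

lemma al_nonneg (γ : ℝ) (hγ : 0 ≤ γ) (i : ℕ) : 0 ≤ al γ i := by
  unfold al
  positivity

lemma al_le (γ : ℝ) (hγ : 0 ≤ γ) (i : ℕ) : al γ i ≤ γ := by
  unfold al
  have h1 : (i : ℝ) / (i + 1) ≤ 1 := by
    rw [div_le_one (by positivity)]
    linarith
  nlinarith

lemma ss_nonneg (γ : ℝ) (hγ : 0 ≤ γ) (i : ℕ) : 0 ≤ ss γ i := by
  unfold ss
  have h1 := al_nonneg γ hγ i
  have h2 : (1 : ℝ) / (i + 1) ≤ 1 := by
    rw [div_le_one (by positivity)]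
    have : (0 : ℝ) ≤ i := Nat.cast_nonneg i
    linarith
  linarith

lemma ss_lt (γ : ℝ) (i : ℕ) : ss γ i < 1 + al γ i := by
  unfold ss
  have h2 : (0 : ℝ) < 1 / (i + 1) := by positivity
  linarith

lemma core (d N : ℕ) (γ ε r : ℝ) (hγ : 0 ≤ γ) (hε : 0 < ε) (hr : 2 + γ ≤ r) :
    ∃ i : ℕ, ∃ C : ℝ, 0 < C ∧ ∀ (p : (Fin (d + 2) → ℝ) → (Fin (d + 2) → ℝ)) (_ : Measurable p)
    (m : Fin (d + 1) → ℝ) (δ : ℝ) (_ : 0 < δ) (_ : δ ≤ 1) (G : Set (Fin (d + 2) → ℝ))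
    (_ : MeasurableSet G) (_ : G ⊆ Bx d N) (W : (Fin (d + 2) → ℝ) → ℝ≥0∞) (_ : Measurable W)
    (c : ℝ≥0∞) (_ : c ≠ 0) (_ : ∀ v, c ≤ W v) (w : ℝ≥0∞)
    (_ : ∀ v ∈ G, Wa p (N + 2) (al γ i) ((N + 1) * δ) m v ≤
      ENNReal.ofReal (((N + 1) * δ) ^ (ss γ i)) * w * W v)
    (f : (Fin (d + 2) → ℝ) × ℝ → ℝ≥0∞) (_ : Measurable f),
    ∫⁻ v in G, (∫⁻ y in tb p (N + 2) ((N + 1) * δ) m v, f y) ^ r / W v ≤
      ENNReal.ofReal (C * δ ^ (((d : ℝ) + 2) * r - (d + 1 - γ) - ε)) * w * ∫⁻ y, f y ^ r := by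
  obtain ⟨i, hi⟩ := exists_nat_gt ((γ + 1) / ε)
  have hi1 : (0 : ℝ) < (i : ℝ) + 1 := by positivity
  have hiε : (γ + 1) / ((i : ℝ) + 1) ≤ ε := by
    rw [div_le_iff₀ hi1]
    rw [div_lt_iff₀ hε] at hi
    linarith
  have hN : (0 : ℝ) ≤ N := Nat.cast_nonneg N
  have he : (i : ℝ) / (i + 1) < 1 := by
    rw [div_lt_one hi1]
    linarith
  have he0 : (0 : ℝ) ≤ (i : ℝ) / (i + 1) := by positivity
  obtain ⟨C, hC0, hC⟩ := fixm d ((N : ℝ) + 2) r ((i : ℝ) / (i + 1)) (al γ i) (by linarith)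
    (by linarith) he0 he (by
      unfold al
      rw [mul_comm]
      gcongr
      linarith)
  refine ⟨i, C * ((N : ℝ) + 1) ^ (((d : ℝ) + 2) * (r - 1) + ss γ i), by positivity, ?_⟩
  intro p hp m δ hδ hδ1 G hG hGB W hW c hc hcW w hw f hf
  have hδ' : 0 < ((N : ℝ) + 1) * δ := by positivity
  have hδR : ((N : ℝ) + 1) * δ ≤ (N : ℝ) + 2 := by nlinarith
  have hGB' : G ⊆ Bx d ((N : ℝ) + 2) := by
    refine hGB.trans ?_
    intro v hv j hj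
    have := hv j hj
    constructor <;> linarith [this.1, this.2]
  refine (hC p hp m (((N : ℝ) + 1) * δ) hδ' hδR G hG hGB' W hW c hc hcW _ hw f hf).trans ?_
  rw [← mul_assoc, ← ENNReal.ofReal_mul (by positivity)]
  refine mul_le_mul' (mul_le_mul' (ENNReal.ofReal_le_ofReal ?_) le_rfl) le_rfl
  have e1 : C * (((N : ℝ) + 1) * δ) ^ (((d : ℝ) + 2) * (r - 1)) *
      (((N : ℝ) + 1) * δ) ^ ss γ i = C * ((N : ℝ) + 1) ^ (((d : ℝ) + 2) * (r - 1) + ss γ i) *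
      δ ^ (((d : ℝ) + 2) * (r - 1) + ss γ i) := by
    rw [mul_assoc, ← Real.rpow_add hδ', Real.mul_rpow (by positivity) hδ.le]
    ring
  rw [e1]
  have e2 : δ ^ (((d : ℝ) + 2) * (r - 1) + ss γ i) ≤
      δ ^ (((d : ℝ) + 2) * r - (d + 1 - γ) - ε) := by
    apply Real.rpow_le_rpow_of_exponent_ge hδ hδ1
    have e3 : ss γ i = 1 + γ - (γ + 1) / ((i : ℝ) + 1) := by
      unfold ss al
      field_simp
      ring
    rw [e3]
    linarith
  gcongr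

/-- Cauchy-Schwarz -/
lemma cs {V : Type*} [MeasurableSpace V] (α : Measure V) (F W : V → ℝ≥0∞) (hF : Measurable F)
    (hW : Measurable W) (c : ℝ≥0∞) (hc : c ≠ 0) (hcW : ∀ v, c ≤ W v) (hW1 : ∫⁻ v, W v ∂α ≤ 1)
    (r : ℝ) : (∫⁻ v, F v ^ (r / 2) ∂α) ^ (2 : ℝ) ≤ ∫⁻ v, F v ^ r / W v ∂α := by
  have hfin := ae_lt_top hW (ne_top_of_le_ne_top ENNReal.one_ne_top hW1)
  have hm1 : Measurable fun v => (F v ^ r / W v) ^ (1 / (2:ℝ)) :=
    ((hF.pow_const r).div hW).pow_const _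
  have hm2 : Measurable fun v => W v ^ (1 / (2:ℝ)) := hW.pow_const _
  have h1 : ∫⁻ v, F v ^ (r / 2) ∂α ≤
      ∫⁻ v, (F v ^ r / W v) ^ (1 / (2:ℝ)) * W v ^ (1 / (2:ℝ)) ∂α := by
    apply lintegral_mono_ae
    filter_upwards [hfin] with v hv
    rw [← ENNReal.mul_rpow_of_nonneg _ _ (by norm_num : (0:ℝ) ≤ 1 / 2)]
    have hv0 : W v ≠ 0 := fun h => hc (le_antisymm (h ▸ hcW v) zero_le)
    rw [ENNReal.div_mul_cancel hv0 hv.ne, ← ENNReal.rpow_mul]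
    apply le_of_eq
    congr 1
    ring
  have h2 := ENNReal.lintegral_mul_le_Lp_mul_Lq α Real.HolderConjugate.two_two
    hm1.aemeasurable hm2.aemeasurable
  have e1 : ∀ x : ℝ≥0∞, (x ^ (1 / (2:ℝ))) ^ (2:ℝ) = x := by
    intro x
    rw [← ENNReal.rpow_mul]
    norm_num
  simp only [Pi.mul_apply, e1] at h2
  calc (∫⁻ v, F v ^ (r / 2) ∂α) ^ (2 : ℝ) ≤ ((∫⁻ v, F v ^ r / W v ∂α) ^ (1 / (2:ℝ)) *
        (∫⁻ v, W v ∂α) ^ (1 / (2:ℝ))) ^ (2 : ℝ) :=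
        ENNReal.rpow_le_rpow (h1.trans h2) (by norm_num)
    _ = (∫⁻ v, F v ^ r / W v ∂α) * ∫⁻ v, W v ∂α := by
        rw [ENNReal.mul_rpow_of_nonneg _ _ (by norm_num : (0:ℝ) ≤ 2), e1, e1]
    _ ≤ (∫⁻ v, F v ^ r / W v ∂α) * 1 := mul_le_mul' le_rfl hW1
    _ = _ := mul_one _

theorem mainA (A γ : ℝ) (hA : 0 ≤ A) (hγ0 : 0 ≤ γ) (hγ : γ ≤ d + 1)
    (μ : Measure (Fin (d + 1) → ℝ))
    (hμ : ∀ x : Fin (d + 1) → ℝ, ∀ r : ℝ, 0 < r →
      μ (closedBall x r) ≤ ENNReal.ofReal (A * r ^ γ))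
    (p : (Fin (d + 2) → ℝ) → (Fin (d + 2) → ℝ)) (hp : Measurable p) :
    ∀ᵐ m ∂μ, ∀ N : ℕ, ∃ W : (Fin (d + 2) → ℝ) → ℝ≥0∞, Measurable W ∧
      (∃ c : ℝ≥0∞, c ≠ 0 ∧ ∀ v, c ≤ W v) ∧ ∫⁻ v in Bx d N, W v ≤ 1 ∧
      ∀ ε r : ℝ, 0 < ε → 2 + γ ≤ r → ∃ C : ℝ, 0 < C ∧
      ∀ δ : ℝ, 0 < δ → δ ≤ 1 → ∀ f : (Fin (d + 2) → ℝ) × ℝ → ℝ≥0∞, Measurable f →
      ∫⁻ v in Bx d N, (∫⁻ y in tb p (N + 2) ((N + 1) * δ) m v, f y) ^ r / W v ≤
      ENNReal.ofReal (C * δ ^ (((d : ℝ) + 2) * r - (d + 1 - γ) - ε)) * ∫⁻ y, f y ^ r := by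
  have hsf := sig (d + 1) μ A γ hμ
  have hall : ∀ᵐ m ∂μ, ∀ N i n : ℕ, m ∈ closedBall (0 : Fin (d + 1) → ℝ) ((n : ℝ) + 1) →
      ∫⁻ v in Bx d ((N : ℝ) + 2), ptn p ((N : ℝ) + 2) (al γ i) (ss γ i) m v < ⊤ := by
    rw [ae_all_iff]
    intro N
    rw [ae_all_iff]
    intro i
    rw [ae_all_iff]
    intro n
    have hn : (0 : ℝ) ≤ n := Nat.cast_nonneg n
    have hN : (0 : ℝ) ≤ N := Nat.cast_nonneg N
    have h1 := ae_fin3 hp μ hsf A γ hA hγ hμ ((n : ℝ) + 1) ((N : ℝ) + 2) (al γ i) (ss γ i)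
      (by linarith) (by linarith) (al_nonneg γ hγ0 i) (al_le γ hγ0 i) (ss_lt γ i)
    rw [ae_restrict_iff' measurableSet_closedBall] at h1
    exact h1
  filter_upwards [hall] with m hm N
  obtain ⟨n₀, hn₀⟩ := exists_nat_ge ‖m‖
  have hmem : m ∈ closedBall (0 : Fin (d + 1) → ℝ) ((n₀ : ℝ) + 1) := by
    rw [mem_closedBall, dist_zero_right]
    linarith
  have hN : (0 : ℝ) ≤ N := Nat.cast_nonneg N
  have hfin : ∀ i, ∫⁻ v in Bx d ((N : ℝ) + 2), ptn p ((N : ℝ) + 2) (al γ i) (ss γ i) m v < ⊤ :=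
    fun i => hm N i n₀ hmem
  have hsubB : Bx d (N : ℝ) ⊆ Bx d ((N : ℝ) + 2) := by
    intro v hv j hj
    have := hv j hj
    constructor <;> linarith [this.1, this.2]
  have hhalf : (1 / 2 : ℝ≥0∞) ≠ 0 := by simp
  obtain ⟨κ, hκ0, hκ⟩ := ENNReal.exists_pos_sum_of_countable hhalf ℕ
  have hptm : ∀ i, Measurable (ptn p ((N : ℝ) + 2) (al γ i) (ss γ i) m) := fun i => ptn_m hp _ _ _ m
  set I : ℕ → ℝ≥0∞ := fun i => ∫⁻ v in Bx d ((N : ℝ) + 2),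
    ptn p ((N : ℝ) + 2) (al γ i) (ss γ i) m v with hI
  have hI1t : ∀ i, I i + 1 ≠ ⊤ := fun i => ENNReal.add_ne_top.2 ⟨(hfin i).ne, ENNReal.one_ne_top⟩
  have hI10 : ∀ i, I i + 1 ≠ 0 := fun i => (lt_of_lt_of_le one_pos le_add_self).ne'
  set ci : ℕ → ℝ≥0∞ := fun i => κ i / (I i + 1) with hci
  have hci0 : ∀ i, ci i ≠ 0 := by
    intro i
    have h1 : ((κ i : ℝ≥0) : ℝ≥0∞) ≠ 0 := by
      have := hκ0 i
      exact_mod_cast this.ne'
    exact (ENNReal.div_pos h1 (hI1t i)).ne'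
  have hcit : ∀ i, ci i ≠ ⊤ := fun i => ENNReal.div_ne_top ENNReal.coe_ne_top (hI10 i)
  have hV : volume (Bx d (N : ℝ)) + 1 ≠ ⊤ := by
    rw [vol_Bx _ hN]
    exact ENNReal.add_ne_top.2 ⟨ENNReal.ofReal_ne_top, ENNReal.one_ne_top⟩
  have hV0 : volume (Bx d (N : ℝ)) + 1 ≠ 0 := (lt_of_lt_of_le one_pos le_add_self).ne'
  set c : ℝ≥0∞ := (1 / 2) / (volume (Bx d (N : ℝ)) + 1) with hc
  have hc0 : c ≠ 0 := (ENNReal.div_pos hhalf hV).ne'
  set W : (Fin (d + 2) → ℝ) → ℝ≥0∞ := fun v =>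
    c + ∑' i, ci i * ptn p ((N : ℝ) + 2) (al γ i) (ss γ i) m v with hW
  have hcm : ∀ i, Measurable fun v => ci i * ptn p ((N : ℝ) + 2) (al γ i) (ss γ i) m v :=
    fun i => (hptm i).const_mul _
  have hWm : Measurable W := measurable_const.add (Measurable.tsum hcm)
  have hcW : ∀ v, c ≤ W v := fun v => le_self_add
  refine ⟨W, hWm, ⟨c, hc0, hcW⟩, ?_, ?_⟩
  · have h1 : ∫⁻ v in Bx d (N : ℝ), W v = c * volume (Bx d (N : ℝ)) +
        ∑' i, ci i * ∫⁻ v in Bx d (N : ℝ), ptn p ((N : ℝ) + 2) (al γ i) (ss γ i) m v := by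
      rw [hW]
      simp only
      rw [lintegral_add_left measurable_const, setLIntegral_const,
        lintegral_tsum (fun i => (hcm i).aemeasurable)]
      congr 1
      congr 1
      ext i
      rw [lintegral_const_mul _ (hptm i)]
    rw [h1]
    have h2 : c * volume (Bx d (N : ℝ)) ≤ 1 / 2 := by
      calc c * volume (Bx d (N : ℝ)) ≤ c * (volume (Bx d (N : ℝ)) + 1) :=
            mul_le_mul' le_rfl le_self_add
        _ = 1 / 2 := ENNReal.div_mul_cancel hV0 hV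
    have h3 : ∑' i, ci i * ∫⁻ v in Bx d (N : ℝ), ptn p ((N : ℝ) + 2) (al γ i) (ss γ i) m v ≤
        1 / 2 := by
      refine le_trans (ENNReal.tsum_le_tsum (fun i => ?_)) hκ.le
      calc ci i * ∫⁻ v in Bx d (N : ℝ), ptn p ((N : ℝ) + 2) (al γ i) (ss γ i) m v ≤
            ci i * (I i + 1) :=
            mul_le_mul' le_rfl ((lintegral_mono_set hsubB).trans le_self_add)
        _ = κ i := ENNReal.div_mul_cancel (hI10 i) (hI1t i)
    refine (add_le_add h2 h3).trans (le_of_eq ?_)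
    exact ENNReal.add_halves 1
  · intro ε r hε hr
    obtain ⟨i, C, hC0, hC⟩ := core d N γ ε r hγ0 hε hr
    set M : ℝ := ((ci i)⁻¹).toReal + 1 with hM
    have hM0 : 0 < M := by
      rw [hM]
      have : 0 ≤ ((ci i)⁻¹).toReal := ENNReal.toReal_nonneg
      linarith
    have hMi : (ci i)⁻¹ ≤ ENNReal.ofReal M := by
      rw [← ENNReal.ofReal_toReal (ENNReal.inv_ne_top.2 (hci0 i))]
      apply ENNReal.ofReal_le_ofReal
      linarith
    refine ⟨C * ((2 / ((N : ℝ) + 2)) ^ ss γ i * M), by positivity, ?_⟩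
    intro δ hδ hδ1 f hf
    have hδ' : 0 < ((N : ℝ) + 1) * δ := by positivity
    have hδR : ((N : ℝ) + 1) * δ ≤ (N : ℝ) + 2 := by nlinarith
    have h1 := hC p hp m δ hδ hδ1 (Bx d N) (Bx_meas _) le_rfl W hWm c hc0 hcW
      (ENNReal.ofReal ((2 / ((N : ℝ) + 2)) ^ ss γ i * M)) (by
        intro v hv
        have h2 : ptn p ((N : ℝ) + 2) (al γ i) (ss γ i) m v ≤ ENNReal.ofReal M * W v := by
          calc ptn p ((N : ℝ) + 2) (al γ i) (ss γ i) m v =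
                (ci i)⁻¹ * (ci i * ptn p ((N : ℝ) + 2) (al γ i) (ss γ i) m v) := by
                rw [← mul_assoc, ENNReal.inv_mul_cancel (hci0 i) (hcit i), one_mul]
            _ ≤ ENNReal.ofReal M * W v := by
                refine mul_le_mul' hMi (le_trans ?_ le_add_self)
                exact ENNReal.le_tsum (f := fun i => ci i *
                  ptn p ((N : ℝ) + 2) (al γ i) (ss γ i) m v) i
        refine (Wa_ptn p ((N : ℝ) + 2) (al γ i) (ss γ i) (by linarith) (al_nonneg γ hγ0 i)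
          (ss_nonneg γ hγ0 i) m v (((N : ℝ) + 1) * δ) hδ' hδR).trans ?_
        refine (mul_le_mul' le_rfl h2).trans (le_of_eq ?_)
        rw [← mul_assoc, ← ENNReal.ofReal_mul (by positivity), ← ENNReal.ofReal_mul (by positivity)]
        congr 2
        ring) f hf
    refine h1.trans (le_of_eq ?_)
    rw [← ENNReal.ofReal_mul (by positivity)]
    congr 2
    ring

theorem mainB (d N : ℕ) (A γ L ε r : ℝ) (hA : 0 ≤ A) (hγ0 : 0 ≤ γ) (hγ : γ ≤ d + 1) (hL : 0 < L)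
    (hε : 0 < ε) (hr : 2 + γ ≤ r) : ∃ C : ℝ, 0 < C ∧
    ∀ (μ : Measure (Fin (d + 1) → ℝ)) (_ : ∀ x : Fin (d + 1) → ℝ, ∀ r : ℝ, 0 < r →
      μ (closedBall x r) ≤ ENNReal.ofReal (A * r ^ γ))
    (p : (Fin (d + 2) → ℝ) → (Fin (d + 2) → ℝ)) (_ : Measurable p) (δ : ℝ) (_ : 0 < δ)
    (_ : δ ≤ 1), ∃ W : (Fin (d + 1) → ℝ) → (Fin (d + 2) → ℝ) → ℝ≥0∞,
      Measurable (Function.uncurry W) ∧ (∃ c : ℝ≥0∞, c ≠ 0 ∧ ∀ m v, c ≤ W m v) ∧
      ∫⁻ m in closedBall 0 L, (∫⁻ v in Bx d N, W m v) ∂μ ≤ 1 ∧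
      ∀ m, ∀ f : (Fin (d + 2) → ℝ) × ℝ → ℝ≥0∞, Measurable f →
      ∫⁻ v in Bx d N, (∫⁻ y in tb p (N + 2) ((N + 1) * δ) m v, f y) ^ r / W m v ≤
      ENNReal.ofReal (C * δ ^ (((d : ℝ) + 2) * r - (d + 1 - γ) - ε)) * ∫⁻ y, f y ^ r := by
  obtain ⟨i, C, hC0, hC⟩ := core d N γ ε r hγ0 hε hr
  have hN : (0 : ℝ) ≤ N := Nat.cast_nonneg N
  have hi1 : (0 : ℝ) < 1 / ((i : ℝ) + 1) := by positivity
  obtain ⟨C', hC'0, hC'⟩ := key3 d A γ hA hγ L ((N : ℝ) + 2) (al γ i) (1 / ((i : ℝ) + 1)) hL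
    (by linarith) (al_nonneg γ hγ0 i) (al_le γ hγ0 i) hi1
  refine ⟨C * (2 * (C' + 1)), by positivity, ?_⟩
  intro μ hμ p hp δ hδ hδ1
  have hsf := sig (d + 1) μ A γ hμ
  have hδ' : 0 < ((N : ℝ) + 1) * δ := by positivity
  have hδR : ((N : ℝ) + 1) * δ ≤ (N : ℝ) + 2 := by nlinarith
  have hhalf : (1 / 2 : ℝ≥0∞) ≠ 0 := by simp
  have hsubB : Bx d (N : ℝ) ⊆ Bx d ((N : ℝ) + 2) := by
    intro v hv j hj
    have := hv j hj
    constructor <;> linarith [this.1, this.2]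
  set V : ℝ≥0∞ := volume (Bx d (N : ℝ)) * μ (closedBall 0 L) with hVdef
  have hV : V + 1 ≠ ⊤ := by
    rw [hVdef, vol_Bx _ hN]
    exact ENNReal.add_ne_top.2 ⟨ENNReal.mul_ne_top ENNReal.ofReal_ne_top
      (ne_top_of_le_ne_top ENNReal.ofReal_ne_top (hμ 0 L hL)), ENNReal.one_ne_top⟩
  have hV0 : V + 1 ≠ 0 := (lt_of_lt_of_le one_pos le_add_self).ne'
  set c : ℝ≥0∞ := (1 / 2) / (V + 1) with hc
  have hc0 : c ≠ 0 := (ENNReal.div_pos hhalf hV).ne'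
  set T : ℝ := 2 * (C' + 1) * (((N : ℝ) + 1) * δ) ^ (ss γ i) with hT
  have hT0 : 0 < T := by positivity
  have hWm := Wa_unc hp ((N : ℝ) + 2) (al γ i) (((N : ℝ) + 1) * δ)
  have hW1 : ∀ m, Measurable (Wa p ((N : ℝ) + 2) (al γ i) (((N : ℝ) + 1) * δ) m) :=
    fun m => hWm.of_uncurry_left
  set W : (Fin (d + 1) → ℝ) → (Fin (d + 2) → ℝ) → ℝ≥0∞ := fun m v =>
    c + ENNReal.ofReal T⁻¹ * Wa p ((N : ℝ) + 2) (al γ i) (((N : ℝ) + 1) * δ) m v with hW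
  have hWunc : Measurable (Function.uncurry W) := by
    have h1 : Function.uncurry W = fun y => c + ENNReal.ofReal T⁻¹ *
        Function.uncurry (Wa p ((N : ℝ) + 2) (al γ i) (((N : ℝ) + 1) * δ)) y := rfl
    rw [h1]
    exact measurable_const.add (hWm.const_mul _)
  have hcW : ∀ m v, c ≤ W m v := fun m v => le_self_add
  refine ⟨W, hWunc, ⟨c, hc0, hcW⟩, ?_, ?_⟩
  · have h1 : ∀ m, ∫⁻ v in Bx d (N : ℝ), W m v ≤ c * volume (Bx d (N : ℝ)) +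
        ENNReal.ofReal T⁻¹ * ∫⁻ v in Bx d ((N : ℝ) + 2),
          Wa p ((N : ℝ) + 2) (al γ i) (((N : ℝ) + 1) * δ) m v := by
      intro m
      rw [hW]
      simp only
      rw [lintegral_add_left measurable_const, setLIntegral_const, lintegral_const_mul _ (hW1 m)]
      exact add_le_add le_rfl (mul_le_mul' le_rfl (lintegral_mono_set hsubB))
    have h2 : c * V ≤ 1 / 2 := by
      calc c * V ≤ c * (V + 1) := mul_le_mul' le_rfl le_self_add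
        _ = 1 / 2 := ENNReal.div_mul_cancel hV0 hV
    have h3 : ENNReal.ofReal T⁻¹ * ENNReal.ofReal (C' * (((N : ℝ) + 1) * δ) ^
        (1 + al γ i - 1 / ((i : ℝ) + 1))) ≤ 1 / 2 := by
      have e0 : (1 / 2 : ℝ≥0∞) = ENNReal.ofReal (1 / 2) := by
        rw [ENNReal.ofReal_div_of_pos (by norm_num)]
        simp
      rw [e0, ← ENNReal.ofReal_mul (by positivity)]
      apply ENNReal.ofReal_le_ofReal
      have e1 : (((N : ℝ) + 1) * δ) ^ (1 + al γ i - 1 / ((i : ℝ) + 1)) =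
        (((N : ℝ) + 1) * δ) ^ ss γ i := rfl
      have e2 : 0 < (((N : ℝ) + 1) * δ) ^ ss γ i := by positivity
      rw [e1, inv_mul_le_iff₀ hT0, hT]
      nlinarith
    calc ∫⁻ m in closedBall 0 L, (∫⁻ v in Bx d N, W m v) ∂μ ≤
          ∫⁻ m in closedBall 0 L, (c * volume (Bx d (N : ℝ)) +
        ENNReal.ofReal T⁻¹ * ∫⁻ v in Bx d ((N : ℝ) + 2),
          Wa p ((N : ℝ) + 2) (al γ i) (((N : ℝ) + 1) * δ) m v) ∂μ := lintegral_mono h1
      _ = c * V + ENNReal.ofReal T⁻¹ * ∫⁻ m in closedBall 0 L, (∫⁻ v in Bx d ((N : ℝ) + 2),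
          Wa p ((N : ℝ) + 2) (al γ i) (((N : ℝ) + 1) * δ) m v) ∂μ := by
          rw [lintegral_add_left measurable_const, setLIntegral_const,
            lintegral_const_mul' _ _ ENNReal.ofReal_ne_top, hVdef]
          ring
      _ ≤ 1 / 2 + 1 / 2 := add_le_add h2 ((mul_le_mul' le_rfl
          (hC' p hp μ hsf hμ (((N : ℝ) + 1) * δ) hδ' hδR)).trans h3)
      _ = 1 := ENNReal.add_halves 1
  · intro m f hf
    have h1 := hC p hp m δ hδ hδ1 (Bx d N) (Bx_meas _) le_rfl (W m) hWunc.of_uncurry_left c hc0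
      (hcW m) (ENNReal.ofReal (2 * (C' + 1))) (by
        intro v hv
        calc Wa p ((N : ℝ) + 2) (al γ i) (((N : ℝ) + 1) * δ) m v =
              ENNReal.ofReal T * (ENNReal.ofReal T⁻¹ *
                Wa p ((N : ℝ) + 2) (al γ i) (((N : ℝ) + 1) * δ) m v) := by
              rw [← mul_assoc, ← ENNReal.ofReal_mul hT0.le, mul_inv_cancel₀ hT0.ne',
                ENNReal.ofReal_one, one_mul]
          _ ≤ ENNReal.ofReal T * W m v := mul_le_mul' le_rfl le_add_self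
          _ = _ := by
              rw [← ENNReal.ofReal_mul (by positivity)]
              congr 2
              rw [hT]
              ring) f hf
    refine h1.trans (le_of_eq ?_)
    rw [← ENNReal.ofReal_mul (by positivity)]
    congr 2
    ring

end Pool.Agent.H147R3.KM
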