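import Mathlib
import Pool.Agent.H147R3.KM.Eight
set_option autoImplicit false

/-! The maximal estimates for families with generically dilated positions: one weight for all
scales, with a uniform constant. -/

namespace Pool.Agent.H147R3.KM

open MeasureTheory Set Metric
open scoped ENNReal NNReal
open Pool.Agent.H147R3.KH

theorem ptn_bound (d : ℕ) (A γ L R α s : ℝ) (hA : 0 ≤ A) (hγ : γ ≤ d + 1) (hL : 0 < L)
    (hR : 2 ≤ R) (hα : 0 ≤ α) (hαγ : α ≤ γ) (hs : s < 1 + α) : ∃ C : ℝ, 0 ≤ C ∧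
    ∀ (p : (Fin (d + 2) → ℝ) → (Fin (d + 2) → ℝ)) (_ : Measurable p)
    (μ : Measure (Fin (d + 1) → ℝ)) (_ : SFinite μ)
    (_ : ∀ x : Fin (d + 1) → ℝ, ∀ r : ℝ, 0 < r →
      μ (closedBall x r) ≤ ENNReal.ofReal (A * r ^ γ)),
    ∫⁻ m in closedBall 0 L, (∫⁻ v in Bx d R, ptn p R α s m v) ∂μ ≤ ENNReal.ofReal C := by
  have hR0 : 0 < R := by linarith
  have hε : 0 < (1 + α - s) / 2 := by linarith
  obtain ⟨C, hC0, hC⟩ := key3 d A γ hA hγ L R α ((1 + α - s) / 2) hL hR hα hαγ hε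
  have hσ : 1 + α - (1 + α - s) / 2 = (1 + α + s) / 2 := by ring
  rw [hσ] at hC
  have hr0 : (0 : ℝ) ≤ (2 : ℝ) ^ (-((1 + α - s) / 2)) := by positivity
  have hr1 : (2 : ℝ) ^ (-((1 + α - s) / 2)) < 1 :=
    Real.rpow_lt_one_of_one_lt_of_neg (by norm_num) (by linarith)
  refine ⟨C * R ^ ((1 + α + s) / 2) * (1 - (2 : ℝ) ^ (-((1 + α - s) / 2)))⁻¹, ?_, ?_⟩
  · have : 0 < 1 - (2 : ℝ) ^ (-((1 + α - s) / 2)) := by linarith
    positivity
  intro p hp μ hsf hμ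
  have hi : ∀ k : ℕ, Measurable fun m : Fin (d + 1) → ℝ =>
      ∫⁻ v in Bx d R, Wa p R α (R * (1 / 2 : ℝ) ^ k) m v := fun k =>
    Measurable.lintegral_prod_right (Wa_unc hp R α (R * (1 / 2 : ℝ) ^ k))
  simp only [ptn_int hp]
  rw [lintegral_tsum (fun k => ((hi k).const_mul _).aemeasurable)]
  have h2 : ∀ k : ℕ, ∫⁻ m in closedBall 0 L, (ENNReal.ofReal (2 ^ (k * s)) *
      ∫⁻ v in Bx d R, Wa p R α (R * (1 / 2 : ℝ) ^ k) m v) ∂μ ≤
      ENNReal.ofReal (C * R ^ ((1 + α + s) / 2) *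
        ((2 : ℝ) ^ (-((1 + α - s) / 2))) ^ k) := by
    intro k
    rw [lintegral_const_mul _ (hi k)]
    have hk1 : R * (1 / 2 : ℝ) ^ k ≤ R := by
      have : (1 / 2 : ℝ) ^ k ≤ 1 := pow_le_one₀ (by norm_num) (by norm_num)
      nlinarith
    refine (mul_le_mul' le_rfl (hC p hp μ hsf hμ (R * (1 / 2 : ℝ) ^ k) (by positivity)
      hk1)).trans (le_of_eq ?_)
    rw [← ENNReal.ofReal_mul (by positivity)]
    congr 1
    have e1 : (R * (1 / 2 : ℝ) ^ k) ^ ((1 + α + s) / 2) = R ^ ((1 + α + s) / 2) *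
        2 ^ (-(k * ((1 + α + s) / 2))) := by
      rw [Real.mul_rpow hR0.le (by positivity), ← Real.rpow_natCast,
        ← Real.rpow_mul (by norm_num), one_div, Real.inv_rpow (by norm_num),
        ← Real.rpow_neg (by norm_num)]
    have e2 : ((2 : ℝ) ^ (-((1 + α - s) / 2))) ^ k = 2 ^ (-((1 + α - s) / 2) * k) := by
      rw [Real.rpow_mul (by norm_num), Real.rpow_natCast]
    rw [e1, e2]
    have e3 : (2 : ℝ) ^ (k * s) * (C * (R ^ ((1 + α + s) / 2) *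
        2 ^ (-(k * ((1 + α + s) / 2))))) =
        C * R ^ ((1 + α + s) / 2) * (2 ^ (k * s) * 2 ^ (-(k * ((1 + α + s) / 2)))) := by ring
    rw [e3, ← Real.rpow_add (by norm_num)]
    congr 2
    ring
  refine (ENNReal.tsum_le_tsum h2).trans (le_of_eq ?_)
  have hsum : Summable fun k : ℕ => C * R ^ ((1 + α + s) / 2) *
      ((2 : ℝ) ^ (-((1 + α - s) / 2))) ^ k :=
    (summable_geometric_of_lt_one hr0 hr1).mul_left _
  rw [← ENNReal.ofReal_tsum_of_nonneg (fun k => by positivity) hsum, tsum_mul_left,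
    tsum_geometric_of_lt_one hr0 hr1]

theorem mainC (d N : ℕ) (A γ L ε r : ℝ) (hA : 0 ≤ A) (hγ0 : 0 ≤ γ) (hγ : γ ≤ d + 1) (hL : 0 < L)
    (hε : 0 < ε) (hr : 2 + γ ≤ r) : ∃ C : ℝ, 0 < C ∧
    ∀ (μ : Measure (Fin (d + 1) → ℝ)) (_ : ∀ x : Fin (d + 1) → ℝ, ∀ r : ℝ, 0 < r →
      μ (closedBall x r) ≤ ENNReal.ofReal (A * r ^ γ))
    (p : (Fin (d + 2) → ℝ) → (Fin (d + 2) → ℝ)) (_ : Measurable p),
    ∃ W : (Fin (d + 1) → ℝ) → (Fin (d + 2) → ℝ) → ℝ≥0∞,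
      Measurable (Function.uncurry W) ∧
      ∫⁻ m in closedBall 0 L, (∫⁻ v in Bx d N, W m v) ∂μ ≤ 1 ∧
      ∀ (m : Fin (d + 1) → ℝ) (δ : ℝ), 0 < δ → δ ≤ 1 →
      ∀ f : (Fin (d + 2) → ℝ) × ℝ → ℝ≥0∞, Measurable f →
      ∫⁻ v in Bx d N, (∫⁻ y in tb p (N + 2) ((N + 1) * δ) m v, f y) ^ r / W m v ≤
      ENNReal.ofReal (C * δ ^ (((d : ℝ) + 2) * r - (d + 1 - γ) - ε)) * ∫⁻ y, f y ^ r := by
  obtain ⟨i, C, hC0, hC⟩ := core d N γ ε r hγ0 hε hr
  have hN : (0 : ℝ) ≤ N := Nat.cast_nonneg N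
  obtain ⟨C', hC'0, hC'⟩ := ptn_bound d A γ L ((N : ℝ) + 2) (al γ i) (ss γ i) hA hγ hL
    (by linarith) (al_nonneg γ hγ0 i) (al_le γ hγ0 i) (ss_lt γ i)
  refine ⟨C * ((2 / ((N : ℝ) + 2)) ^ ss γ i * (2 * (C' + 1))), by positivity, ?_⟩
  intro μ hμ p hp
  have hsf := sig (d + 1) μ A γ hμ
  have hhalf : (1 / 2 : ℝ≥0∞) ≠ 0 := by simp
  have hsubB : Bx d (N : ℝ) ⊆ Bx d ((N : ℝ) + 2) := by
    intro v hv j hj
    have := hv j hj
    constructor <;> linarith [this.1, this.2]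
  set V : ℝ≥0∞ := volume (Bx d (N : ℝ)) * μ (closedBall 0 L) with hVdef
  have hV : V + 1 ≠ ⊤ := by
    rw [hVdef, vol_Bx _ hN]
    exact ENNReal.add_ne_top.2 ⟨ENNReal.mul_ne_top ENNReal.ofReal_ne_top
      (ne_top_of_le_ne_top ENNReal.ofReal_ne_top (hμ 0 L hL)), ENNReal.one_ne_top⟩
  have hV0 : V + 1 ≠ 0 := (lt_of_lt_of_le one_pos le_add_self).ne'
  set c : ℝ≥0∞ := (1 / 2) / (V + 1) with hc
  have hc0 : c ≠ 0 := (ENNReal.div_pos hhalf hV).ne'
  set T : ℝ := 2 * (C' + 1) with hT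
  have hT0 : 0 < T := by positivity
  have hPm := ptn_unc hp ((N : ℝ) + 2) (al γ i) (ss γ i)
  have hP1 : ∀ m, Measurable (ptn p ((N : ℝ) + 2) (al γ i) (ss γ i) m) :=
    fun m => hPm.of_uncurry_left
  set W : (Fin (d + 1) → ℝ) → (Fin (d + 2) → ℝ) → ℝ≥0∞ := fun m v =>
    c + ENNReal.ofReal T⁻¹ * ptn p ((N : ℝ) + 2) (al γ i) (ss γ i) m v with hW
  have hWunc : Measurable (Function.uncurry W) := by
    have h1 : Function.uncurry W = fun y => c + ENNReal.ofReal T⁻¹ *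
        Function.uncurry (ptn p ((N : ℝ) + 2) (al γ i) (ss γ i)) y := rfl
    rw [h1]
    exact measurable_const.add (hPm.const_mul _)
  have hcW : ∀ m v, c ≤ W m v := fun m v => le_self_add
  refine ⟨W, hWunc, ?_, ?_⟩
  · have h1 : ∀ m, ∫⁻ v in Bx d (N : ℝ), W m v ≤ c * volume (Bx d (N : ℝ)) +
        ENNReal.ofReal T⁻¹ * ∫⁻ v in Bx d ((N : ℝ) + 2),
          ptn p ((N : ℝ) + 2) (al γ i) (ss γ i) m v := by
      intro m
      rw [hW]
      simp only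
      rw [lintegral_add_left measurable_const, setLIntegral_const, lintegral_const_mul _ (hP1 m)]
      exact add_le_add le_rfl (mul_le_mul' le_rfl (lintegral_mono_set hsubB))
    have h2 : c * V ≤ 1 / 2 := by
      calc c * V ≤ c * (V + 1) := mul_le_mul' le_rfl le_self_add
        _ = 1 / 2 := ENNReal.div_mul_cancel hV0 hV
    have h3 : ENNReal.ofReal T⁻¹ * ENNReal.ofReal C' ≤ 1 / 2 := by
      have e0 : (1 / 2 : ℝ≥0∞) = ENNReal.ofReal (1 / 2) := by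
        rw [ENNReal.ofReal_div_of_pos (by norm_num)]
        simp
      rw [e0, ← ENNReal.ofReal_mul (by positivity)]
      apply ENNReal.ofReal_le_ofReal
      rw [inv_mul_le_iff₀ hT0, hT]
      linarith
    calc ∫⁻ m in closedBall 0 L, (∫⁻ v in Bx d N, W m v) ∂μ ≤
          ∫⁻ m in closedBall 0 L, (c * volume (Bx d (N : ℝ)) +
        ENNReal.ofReal T⁻¹ * ∫⁻ v in Bx d ((N : ℝ) + 2),
          ptn p ((N : ℝ) + 2) (al γ i) (ss γ i) m v) ∂μ := lintegral_mono h1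
      _ = c * V + ENNReal.ofReal T⁻¹ * ∫⁻ m in closedBall 0 L, (∫⁻ v in Bx d ((N : ℝ) + 2),
          ptn p ((N : ℝ) + 2) (al γ i) (ss γ i) m v) ∂μ := by
          rw [lintegral_add_left measurable_const, setLIntegral_const,
            lintegral_const_mul' _ _ ENNReal.ofReal_ne_top, hVdef]
          ring
      _ ≤ 1 / 2 + 1 / 2 := add_le_add h2 ((mul_le_mul' le_rfl (hC' p hp μ hsf hμ)).trans h3)
      _ = 1 := ENNReal.add_halves 1
  · intro m δ hδ hδ1 f hf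
    have hδ' : 0 < ((N : ℝ) + 1) * δ := by positivity
    have hδR : ((N : ℝ) + 1) * δ ≤ (N : ℝ) + 2 := by nlinarith
    have h1 := hC p hp m δ hδ hδ1 (Bx d N) (Bx_meas _) le_rfl (W m) hWunc.of_uncurry_left c hc0
      (hcW m) (ENNReal.ofReal ((2 / ((N : ℝ) + 2)) ^ ss γ i * T)) (by
        intro v hv
        have h2 : ptn p ((N : ℝ) + 2) (al γ i) (ss γ i) m v ≤ ENNReal.ofReal T * W m v := by
          calc ptn p ((N : ℝ) + 2) (al γ i) (ss γ i) m v =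
                ENNReal.ofReal T * (ENNReal.ofReal T⁻¹ *
                  ptn p ((N : ℝ) + 2) (al γ i) (ss γ i) m v) := by
                rw [← mul_assoc, ← ENNReal.ofReal_mul hT0.le, mul_inv_cancel₀ hT0.ne',
                  ENNReal.ofReal_one, one_mul]
            _ ≤ ENNReal.ofReal T * W m v := mul_le_mul' le_rfl le_add_self
        refine (Wa_ptn p ((N : ℝ) + 2) (al γ i) (ss γ i) (by linarith) (al_nonneg γ hγ0 i)
          (ss_nonneg γ hγ0 i) m v (((N : ℝ) + 1) * δ) hδ' hδR).trans ?_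
        refine (mul_le_mul' le_rfl h2).trans (le_of_eq ?_)
        rw [← mul_assoc, ← ENNReal.ofReal_mul (by positivity), ← ENNReal.ofReal_mul (by positivity)]
        congr 2
        ring) f hf
    refine h1.trans (le_of_eq ?_)
    rw [← ENNReal.ofReal_mul (by positivity)]
    congr 2
    ring

end Pool.Agent.H147R3.KM
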